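import Pool.Agent.BDA.Defs

set_option autoImplicit false

/-! [BDA-A1] Large blocks. -/

namespace Pool.Agent.BDA

open Finset

/-- the choice of `m` -/
theorem a1_m (ε₁ : ℝ) (hε₁ : 0 < ε₁) (X K : ℝ) (hX : 1 < X) (hK : 2 ≤ K) (h1 : X ^ ε₁ ≤ K)
    (h2 : K ≤ X ^ ((2 : ℝ) / 3)) :
    ∃ m : ℕ, 1 ≤ m ∧ (m : ℝ) ≤ 1 / (3 * ε₁) + 1 ∧ X ^ ((1 : ℝ) / 3) ≤ K ^ m ∧
      K ^ m ≤ X ^ ((2 : ℝ) / 3) := by
  classical
  have hX0 : 0 < X := by linarith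
  have hK1 : 1 < K := by linarith
  have hex : ∃ m : ℕ, X ^ ((1 : ℝ) / 3) ≤ K ^ m := by
    obtain ⟨m, hm⟩ := pow_unbounded_of_one_lt (X ^ ((1 : ℝ) / 3)) hK1
    exact ⟨m, hm.le⟩
  obtain ⟨m, hm, hmin⟩ : ∃ m : ℕ, X ^ ((1 : ℝ) / 3) ≤ K ^ m ∧
      ∀ k < m, K ^ k < X ^ ((1 : ℝ) / 3) :=
    ⟨Nat.find hex, Nat.find_spec hex, fun k hk => not_le.1 (Nat.find_min hex hk)⟩
  have hpos : 0 < 1 / (3 * ε₁) := by positivity
  rcases m with _ | m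
  · exfalso
    have h3 : (1 : ℝ) < X ^ ((1 : ℝ) / 3) := Real.one_lt_rpow hX (by norm_num)
    rw [pow_zero] at hm
    linarith
  refine ⟨m + 1, Nat.le_add_left 1 m, ?_, hm, ?_⟩
  · have h3 := hmin m (Nat.lt_succ_self m)
    have h4 : X ^ (ε₁ * m) ≤ K ^ m := by
      rw [Real.rpow_mul hX0.le, Real.rpow_natCast]
      exact pow_le_pow_left₀ (Real.rpow_nonneg hX0.le _) h1 m
    have h5 : ε₁ * m < 1 / 3 := (Real.rpow_lt_rpow_left_iff hX).1 (h4.trans_lt h3)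
    have h6 : (m : ℝ) ≤ 1 / (3 * ε₁) := by
      rw [le_div_iff₀ (by positivity)]
      linarith
    push_cast
    linarith
  · rcases Nat.eq_zero_or_pos m with rfl | hm0
    · rw [zero_add, pow_one]
      exact h2
    · have h3 := hmin m (Nat.lt_succ_self m)
      have h4 : K ≤ K ^ m := le_self_pow₀ hK1.le hm0.ne'
      have h5 : X ^ ((2 : ℝ) / 3) = X ^ ((1 : ℝ) / 3) * X ^ ((1 : ℝ) / 3) := by
        rw [← Real.rpow_add hX0]
        norm_num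
      rw [h5, pow_succ]
      exact mul_le_mul h3.le (h4.trans h3.le) (by linarith) (Real.rpow_nonneg hX0.le _)

/-- the bound for the logarithmic factor -/
theorem a1_log (ε c M : ℝ) (hε : 0 < ε) (hc : 0 < c) (hM : 0 < M) (M₀ : ℕ) :
    ∃ C : ℝ, 0 < C ∧ ∀ X : ℝ, 1 ≤ X → (1 + M * Real.log X / c) ^ M₀ ≤ C * X ^ ε := by
  have hδ : 0 < ε / (M₀ + 1) := by positivity
  refine ⟨(1 + M / (c * (ε / (M₀ + 1)))) ^ M₀, by positivity, fun X hX => ?_⟩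
  have hX0 : 0 ≤ X := by linarith
  have h1 := Real.log_le_rpow_div hX0 hδ
  have h2 : 1 ≤ X ^ (ε / (M₀ + 1)) := Real.one_le_rpow hX hδ.le
  have h3 : 0 ≤ Real.log X := Real.log_nonneg hX
  have h4 : 1 + M * Real.log X / c ≤ (1 + M / (c * (ε / (M₀ + 1)))) * X ^ (ε / (M₀ + 1)) := by
    have h5 : M * Real.log X / c ≤ M / (c * (ε / (M₀ + 1))) * X ^ (ε / (M₀ + 1)) := by
      calc M * Real.log X / c ≤ M * (X ^ (ε / (M₀ + 1)) / (ε / (M₀ + 1))) / c := by gcongr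
        _ = M / (c * (ε / (M₀ + 1))) * X ^ (ε / (M₀ + 1)) := by
          field_simp
    rw [add_mul, one_mul]
    linarith
  have h6 : 0 ≤ 1 + M * Real.log X / c := by positivity
  have h7 := pow_le_pow_left₀ h6 h4 M₀
  refine h7.trans ?_
  rw [mul_pow]
  refine mul_le_mul_of_nonneg_left ?_ (by positivity)
  rw [← Real.rpow_natCast, ← Real.rpow_mul hX0]
  refine Real.rpow_le_rpow_of_exponent_le hX ?_
  rw [div_mul_eq_mul_div, div_le_iff₀ (by positivity)]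
  nlinarith [hε.le]

/-- the final estimate -/
theorem a1_core (c ε₁ X K n : ℝ) (m : ℕ) (hc : 0 < c) (hX : 1 < X) (hK : 3 ≤ K)
    (hKX : K ≤ X) (hm : 1 ≤ m) (hmM : (m : ℝ) ≤ 1 / (3 * ε₁) + 1) (hM : 0 < 1 / (3 * ε₁) + 1)
    (h1 : X ^ ((1 : ℝ) / 3) ≤ K ^ m) (h2 : K ^ m ≤ X ^ ((2 : ℝ) / 3))
    (h : n * (c * K / (m * Real.log K)) ^ m ≤ 16 * (X + 2 + K ^ (2 * m))) :
    n ≤ 64 * X ^ ((2 : ℝ) / 3) *
      (1 + (1 / (3 * ε₁) + 1) * Real.log X / c) ^ ⌊1 / (3 * ε₁) + 1⌋₊ := by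
  have hX0 : 0 < X := by linarith
  have hK0 : 0 < K := by linarith
  have hL : 0 < Real.log K := Real.log_pos (by linarith)
  have hLX : Real.log K ≤ Real.log X := Real.log_le_log hK0 hKX
  have hm0 : (0 : ℝ) < m := by exact_mod_cast hm
  have hKm : 0 < K ^ m := pow_pos hK0 m
  have h3 : n * K ^ m ≤ 16 * (X + 2 + K ^ (2 * m)) * (m * Real.log K / c) ^ m := by
    have h4 : (c * K / (m * Real.log K)) ^ m * (m * Real.log K / c) ^ m = K ^ m := by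
      rw [← mul_pow]
      congr 1
      field_simp
    calc n * K ^ m = n * (c * K / (m * Real.log K)) ^ m * (m * Real.log K / c) ^ m := by
          rw [mul_assoc, h4]
      _ ≤ _ := mul_le_mul_of_nonneg_right h (by positivity)
  have h5 : X = X ^ ((2 : ℝ) / 3) * X ^ ((1 : ℝ) / 3) := by
    rw [← Real.rpow_add hX0]
    norm_num
  have h6 : X + 2 + K ^ (2 * m) ≤ 4 * X ^ ((2 : ℝ) / 3) * K ^ m := by
    have h7 : 0 ≤ X ^ ((2 : ℝ) / 3) := Real.rpow_nonneg hX0.le _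
    have h8 : X ≤ X ^ ((2 : ℝ) / 3) * K ^ m := by
      calc X = X ^ ((2 : ℝ) / 3) * X ^ ((1 : ℝ) / 3) := h5
        _ ≤ _ := mul_le_mul_of_nonneg_left h1 h7
    have h9 : K ^ (2 * m) ≤ X ^ ((2 : ℝ) / 3) * K ^ m := by
      rw [two_mul, pow_add]
      exact mul_le_mul_of_nonneg_right h2 hKm.le
    linarith
  have h10 : (m * Real.log K / c) ^ m ≤
      (1 + (1 / (3 * ε₁) + 1) * Real.log X / c) ^ ⌊1 / (3 * ε₁) + 1⌋₊ := by
    have h11 : m * Real.log K / c ≤ 1 + (1 / (3 * ε₁) + 1) * Real.log X / c := by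
      have h12 : m * Real.log K ≤ (1 / (3 * ε₁) + 1) * Real.log X :=
        mul_le_mul hmM hLX hL.le hM.le
      have h13 : m * Real.log K / c ≤ (1 / (3 * ε₁) + 1) * Real.log X / c :=
        div_le_div_of_nonneg_right h12 hc.le
      linarith
    have h14 : 1 ≤ 1 + (1 / (3 * ε₁) + 1) * Real.log X / c := by
      have : 0 ≤ (1 / (3 * ε₁) + 1) * Real.log X / c :=
        div_nonneg (mul_nonneg hM.le (Real.log_nonneg hX.le)) hc.le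
      linarith
    exact (pow_le_pow_left₀ (by positivity) h11 m).trans
      (pow_le_pow_right₀ h14 (Nat.le_floor hmM))
  have h15 : n * K ^ m ≤ (64 * X ^ ((2 : ℝ) / 3) *
      (1 + (1 / (3 * ε₁) + 1) * Real.log X / c) ^ ⌊1 / (3 * ε₁) + 1⌋₊) * K ^ m := by
    calc n * K ^ m ≤ 16 * (X + 2 + K ^ (2 * m)) * (m * Real.log K / c) ^ m := h3
      _ ≤ 16 * (4 * X ^ ((2 : ℝ) / 3) * K ^ m) *
          (1 + (1 / (3 * ε₁) + 1) * Real.log X / c) ^ ⌊1 / (3 * ε₁) + 1⌋₊ :=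
        mul_le_mul (mul_le_mul_of_nonneg_left h6 (by norm_num)) h10 (by positivity)
          (by have := Real.rpow_nonneg hX0.le ((2 : ℝ) / 3); positivity)
      _ = _ := by ring
  exact le_of_mul_le_mul_right h15 hKm

/-- Pure real analysis: `N` is any function satisfying the bound of `block_bound`.
Proof.  Let `x ≥ x₀`, `x^{ε₁} ≤ K ≤ x^{2/3}`; `m` = the least natural number with `K^m ≥ x^{1/3}`.  `m ≥ 1`.
`x^{1/3} ≤ K^m ≤ x^{2/3}`: if `m = 1` this is `K ≤ x^{2/3}`; if `m ≥ 2` then `K^{m-1} < x^{1/3}` so `K < x^{1/3}`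
and `K^m < x^{2/3}`.  `K^{m-1} < x^{1/3}` with `K ≥ x^{ε₁}` gives `m ≤ M := 1/(3ε₁) + 1`, and `m ≤ c K/log K` since
`K ≥ x^{ε₁} → ∞`.  The hypothesis: `N K x ≤ 16 (x + 2 + K^{2m}) (m log K/c)^m / K^m`;
`(x+2)/K^m ≤ 3 x^{2/3}`, `K^{2m}/K^m = K^m ≤ x^{2/3}`, `log K ≤ log x`, `m ≤ M`:
`N K x ≤ 64 x^{2/3} (1 + M log x/c)^{M+1} ≤ C x^{2/3+ε}`.  (All `x₀` depend only on `ε, ε₁, c, K₀`.) -/
theorem large_blocks (c : ℝ) (hc : 0 < c) (K₀ : ℕ) (hK₀ : 2 ≤ K₀) (N : ℕ → ℕ → ℝ)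
    (hN : ∀ K m x : ℕ, K₀ ≤ K → 1 ≤ m → (m : ℝ) ≤ c * K / Real.log K →
      N K x * (c * K / (m * Real.log K)) ^ m ≤ 16 * ((x : ℝ) + 2 + (K : ℝ) ^ (2 * m)))
    (ε ε₁ : ℝ) (hε : 0 < ε) (hε₁ : 0 < ε₁) :
    ∃ C : ℝ, ∃ x₀ : ℕ, ∀ x K : ℕ, x₀ ≤ x → (x : ℝ) ^ ε₁ ≤ K → (K : ℝ) ≤ (x : ℝ) ^ ((2 : ℝ) / 3) →
      N K x ≤ C * (x : ℝ) ^ ((2 : ℝ) / 3 + ε) := by
  have hM : 0 < 1 / (3 * ε₁) + 1 := by positivity
  obtain ⟨C, hC, hlog⟩ := a1_log ε c (1 / (3 * ε₁) + 1) hε hc hM ⌊1 / (3 * ε₁) + 1⌋₊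
  have ht : Filter.Tendsto (fun x : ℕ => (x : ℝ) ^ ε₁) Filter.atTop Filter.atTop :=
    (tendsto_rpow_atTop hε₁).comp tendsto_natCast_atTop_atTop
  obtain ⟨x₀, hx₀⟩ := Filter.eventually_atTop.1
    (ht.eventually_ge_atTop (max (max (K₀ : ℝ) 3) ((2 * (1 / (3 * ε₁) + 1) / c) ^ 2)))
  refine ⟨64 * C, max x₀ 2, fun x K hx h1 h2 => ?_⟩
  have hx1 : x₀ ≤ x := (le_max_left _ _).trans hx
  have hx2 : 2 ≤ x := (le_max_right _ _).trans hx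
  have hX : (1 : ℝ) < x := by
    have : (2 : ℝ) ≤ x := by exact_mod_cast hx2
    linarith
  have hX0 : (0 : ℝ) < x := by linarith
  have h3 := (hx₀ x hx1).trans h1
  have hK₀' : (K₀ : ℝ) ≤ K := ((le_max_left _ _).trans (le_max_left _ _)).trans h3
  have hK3 : (3 : ℝ) ≤ K := ((le_max_right _ _).trans (le_max_left _ _)).trans h3
  have hKM : (2 * (1 / (3 * ε₁) + 1) / c) ^ 2 ≤ (K : ℝ) := (le_max_right _ _).trans h3
  have hK0 : (0 : ℝ) < K := by linarith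
  have hL : 0 < Real.log K := Real.log_pos (by linarith)
  obtain ⟨m, hm, hmM, h4, h5⟩ := a1_m ε₁ hε₁ x K hX (by linarith) h1 h2
  have hmc : (m : ℝ) ≤ c * K / Real.log K := by
    rw [le_div_iff₀ hL]
    have h6 : Real.log K ≤ 2 * √(K : ℝ) := by
      have := Real.log_le_rpow_div hK0.le (show (0 : ℝ) < 1 / 2 by norm_num)
      rw [← Real.sqrt_eq_rpow] at this
      linarith
    have h7 : 2 * (1 / (3 * ε₁) + 1) / c ≤ √(K : ℝ) := Real.le_sqrt_of_sq_le hKM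
    have h8 : 2 * (1 / (3 * ε₁) + 1) ≤ c * √(K : ℝ) := by
      rw [div_le_iff₀ hc] at h7
      linarith
    calc (m : ℝ) * Real.log K ≤ (1 / (3 * ε₁) + 1) * (2 * √(K : ℝ)) :=
          mul_le_mul hmM h6 hL.le hM.le
      _ = 2 * (1 / (3 * ε₁) + 1) * √(K : ℝ) := by ring
      _ ≤ c * √(K : ℝ) * √(K : ℝ) := mul_le_mul_of_nonneg_right h8 (Real.sqrt_nonneg _)
      _ = c * K := by rw [mul_assoc, Real.mul_self_sqrt hK0.le]
  have hKX : (K : ℝ) ≤ x := by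
    refine h2.trans ?_
    calc (x : ℝ) ^ ((2 : ℝ) / 3) ≤ (x : ℝ) ^ (1 : ℝ) :=
          Real.rpow_le_rpow_of_exponent_le hX.le (by norm_num)
      _ = x := Real.rpow_one _
  have h9 := a1_core c ε₁ x K (N K x) m hc hX hK3 hKX hm hmM hM h4 h5
    (hN K m x (by exact_mod_cast hK₀') hm hmc)
  refine h9.trans ?_
  rw [Real.rpow_add hX0]
  have h10 := mul_le_mul_of_nonneg_left (hlog x hX.le)
    (show 0 ≤ 64 * (x : ℝ) ^ ((2 : ℝ) / 3) from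
      mul_nonneg (by norm_num) (Real.rpow_nonneg hX0.le _))
  linarith

end Pool.Agent.BDA
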