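import Pool.Agent.BDA.Defs

set_option autoImplicit false

/-! [BDA-A2] Small blocks. -/

namespace Pool.Agent.BDA

open Finset

/-- Pure real analysis: `N` is any function satisfying the bound of `block_bound`.
Proof.  One may take `ε₁ = min (1/10) (ε/2)`.  Let `x ≥ x₀`, `(1/4)(log x)³ ≤ K < x^{ε₁}`, `L = log x`,
`m = ⌊L/(2 log K)⌋`.  `m ≥ 1`, `K^{2m} ≤ x`, `K^m > x^{1/2}/K ≥ x^{1/2-ε₁}`.  `m ≤ L/(2 log K) ≤ c K/log K` as soon as
`L ≤ 2 c K`, true for `x ≥ x₀`.  The hypothesis gives `N K x ≤ 16 (2x + 2) (m log K/(c K))^m ≤ 64 x (L/(2 c K))^m`.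
`L ≤ (4K)^{1/3} ≤ 2 K^{1/3}`, so `L/(2cK) ≤ C₂ K^{-2/3}` with `C₂ = max 1 (1/c)`, and
`(C₂ K^{-2/3})^m ≤ C₂^m (x^{1/2-ε₁})^{-2/3} = C₂^m x^{-1/3+(2/3)ε₁}`.  `C₂^m ≤ C₂^{L/(2 log K)} ≤ x^{ε/3}` once
`log C₂/(2 log K) ≤ ε/3`, true for `x ≥ x₀` because `K ≥ (1/4)(log x)³ → ∞`.
Total `≤ 64 x^{2/3 + (2/3)ε₁ + ε/3} ≤ 64 x^{2/3+ε}`. -/
theorem small_blocks (c : ℝ) (hc : 0 < c) (K₀ : ℕ) (hK₀ : 2 ≤ K₀) (N : ℕ → ℕ → ℝ)
    (hN : ∀ K m x : ℕ, K₀ ≤ K → 1 ≤ m → (m : ℝ) ≤ c * K / Real.log K →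
      N K x * (c * K / (m * Real.log K)) ^ m ≤ 16 * ((x : ℝ) + 2 + (K : ℝ) ^ (2 * m)))
    (ε : ℝ) (hε : 0 < ε) :
    ∃ ε₁ : ℝ, 0 < ε₁ ∧ ∃ C : ℝ, ∃ x₀ : ℕ, ∀ x K : ℕ, x₀ ≤ x → (1 / 4) * (Real.log x) ^ 3 ≤ K →
      (K : ℝ) < (x : ℝ) ^ ε₁ → N K x ≤ C * (x : ℝ) ^ ((2 : ℝ) / 3 + ε) := by
  obtain ⟨B, hB⟩ : ∃ B, B = |Real.log c| := ⟨_, rfl⟩
  have hB0 : 0 ≤ B := by rw [hB]; exact abs_nonneg _
  have hBc : -B ≤ Real.log c := by rw [hB]; exact neg_abs_le _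
  obtain ⟨M, hM⟩ : ∃ M, M = Real.exp (3 * B / (2 * ε)) := ⟨_, rfl⟩
  have hM0 : 0 < M := by rw [hM]; exact Real.exp_pos _
  obtain ⟨L₀, hL₀⟩ : ∃ L₀ : ℝ, L₀ = 1 + 2 / c + 4 * K₀ + 4 * M := ⟨_, rfl⟩
  have hc2 : 0 < 2 / c := by positivity
  have hK₀r : (2 : ℝ) ≤ K₀ := by exact_mod_cast hK₀
  refine ⟨min (1 / 10) ε, lt_min (by norm_num) hε, 64, ⌈Real.exp L₀⌉₊, ?_⟩
  intro x K hx hK1 hK2
  have hxr : Real.exp L₀ ≤ x := (Nat.le_ceil _).trans (Nat.cast_le.2 hx)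
  have hx0 : (0 : ℝ) < x := (Real.exp_pos _).trans_le hxr
  have hx1 : (1 : ℝ) ≤ x := by
    refine le_trans ?_ hxr
    rw [Real.one_le_exp_iff]
    rw [hL₀]
    positivity
  obtain ⟨L, hL⟩ : ∃ L, L = Real.log x := ⟨_, rfl⟩
  have hLL : L₀ ≤ L := by
    rw [hL]
    exact (Real.le_log_iff_exp_le hx0).2 hxr
  rw [← hL] at hK1
  have hexp : Real.exp L = x := by rw [hL, Real.exp_log hx0]
  have hL1 : 1 ≤ L := by linarith
  have hLc : 2 / c ≤ L := by linarith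
  have hcL : 2 ≤ c * L := by
    rw [div_le_iff₀ hc] at hLc
    linarith
  have hLsq : L ≤ L ^ 3 := by
    nlinarith [mul_nonneg (sub_nonneg.2 hL1) (by linarith : (0 : ℝ) ≤ L),
      mul_nonneg (mul_nonneg (sub_nonneg.2 hL1) (by linarith : (0 : ℝ) ≤ L)) (by linarith : (0 : ℝ) ≤ L)]
  have hKK : (K₀ : ℝ) ≤ K := by linarith
  have hKM : M ≤ K := by linarith
  have hK₀K : K₀ ≤ K := by exact_mod_cast hKK
  have hKr : (2 : ℝ) ≤ K := hK₀r.trans hKK
  have hK0 : (0 : ℝ) < K := by linarith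
  obtain ⟨l, hl⟩ : ∃ l, l = Real.log K := ⟨_, rfl⟩
  have hl0 : 0 < l := by
    rw [hl]
    exact Real.log_pos (by linarith)
  have hlL : l < min (1 / 10) ε * L := by
    rw [hl, hL, ← Real.log_rpow hx0]
    exact Real.log_lt_log hK0 hK2
  have hl10 : l < (1 / 10) * L :=
    hlL.trans_le (mul_le_mul_of_nonneg_right (min_le_left _ _) (by linarith))
  have hlε : l < ε * L :=
    hlL.trans_le (mul_le_mul_of_nonneg_right (min_le_right _ _) (by linarith))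
  have hlB : 3 * B / (2 * ε) ≤ l := by
    rw [hl, Real.le_log_iff_exp_le hK0, ← hM]
    exact hKM
  have hlB' : B ≤ 2 * ε / 3 * l := by
    rw [div_le_iff₀ (by positivity)] at hlB
    linarith
  obtain ⟨m, hm⟩ : ∃ m : ℕ, m = ⌊L / (2 * l)⌋₊ := ⟨_, rfl⟩
  have hm1 : (m : ℝ) * l ≤ L / 2 := by
    have h1 : (m : ℝ) ≤ L / (2 * l) := by
      rw [hm]
      exact Nat.floor_le (by positivity)
    rw [le_div_iff₀ (by positivity)] at h1
    linarith
  have hm2 : L / 2 < (m + 1) * l := by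
    have h1 : L / (2 * l) < m + 1 := by
      rw [hm]
      exact Nat.lt_floor_add_one _
    rw [div_lt_iff₀ (by positivity)] at h1
    linarith
  have hm3 : 1 ≤ m := by
    rw [hm]
    rw [Nat.one_le_floor_iff, le_div_iff₀ (by positivity)]
    linarith
  have hm0 : (0 : ℝ) < m := by exact_mod_cast hm3
  have hLK : L ≤ 2 * c * K := by
    have h1 : 2 * c * ((1 / 4) * L ^ 3) ≤ 2 * c * K :=
      mul_le_mul_of_nonneg_left hK1 (by positivity)
    have h2 : L ≤ 2 * c * ((1 / 4) * L ^ 3) := by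
      have h3 : 2 ≤ c * L ^ 2 := by nlinarith
      nlinarith
    linarith
  have hm4 : (m : ℝ) ≤ c * K / Real.log K := by
    rw [← hl, le_div_iff₀ hl0]
    linarith
  have key := hN K m x hK₀K hm3 hm4
  rw [← hl] at key
  have hKm : (K : ℝ) ^ (2 * m) ≤ x := by
    have h1 : (K : ℝ) = Real.exp l := by rw [hl, Real.exp_log hK0]
    rw [h1, ← Real.exp_nat_mul, ← hexp]
    apply Real.exp_le_exp.2
    push_cast
    linarith
  obtain ⟨A, hA⟩ : ∃ A, A = c * K / (m * l) := ⟨_, rfl⟩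
  have hA0 : 0 < A := by rw [hA]; positivity
  rw [← hA] at key
  have hlogA : Real.log c + 2 / 3 * l ≤ Real.log A := by
    have h1 : Real.log A = Real.log c + l - Real.log (m * l) := by
      rw [hA, Real.log_div (by positivity) (by positivity), Real.log_mul hc.ne' hK0.ne', hl]
    have h2 : Real.log (m * l) ≤ Real.log (L / 2) := Real.log_le_log (by positivity) hm1
    have h3 : 3 * Real.log (L / 2) ≤ l := by
      have h4 : (3 : ℝ) * Real.log (L / 2) = Real.log ((L / 2) ^ 3) := by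
        rw [Real.log_pow]
        norm_num
      rw [h4, hl]
      refine Real.log_le_log (by positivity) (le_trans ?_ hK1)
      have : 0 ≤ L ^ 3 := by positivity
      nlinarith
    linarith
  have hAm : Real.exp ((1 / 3 - ε) * L) ≤ A ^ m := by
    have h1 : A ^ m = Real.exp (m * Real.log A) := by
      rw [Real.exp_nat_mul, Real.exp_log hA0]
    rw [h1]
    apply Real.exp_le_exp.2
    have h2 : (m : ℝ) * (Real.log c + 2 / 3 * l) ≤ m * Real.log A :=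
      mul_le_mul_of_nonneg_left hlogA hm0.le
    have h3 : (m : ℝ) * (-B) ≤ m * Real.log c := mul_le_mul_of_nonneg_left hBc hm0.le
    have h4 : (m : ℝ) * B ≤ m * (2 * ε / 3 * l) := mul_le_mul_of_nonneg_left hlB' hm0.le
    have h5 : (m : ℝ) * (2 * ε / 3 * l) ≤ 2 * ε / 3 * (L / 2) := by
      have : (m : ℝ) * (2 * ε / 3 * l) = 2 * ε / 3 * (m * l) := by ring
      rw [this]
      exact mul_le_mul_of_nonneg_left hm1 (by positivity)
    nlinarith
  have hx64 : 16 * ((x : ℝ) + 2 + (K : ℝ) ^ (2 * m)) ≤ 64 * x := by linarith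
  have hfin : N K x ≤ 64 * Real.exp ((2 / 3 + ε) * L) := by
    by_cases hneg : N K x ≤ 0
    · exact hneg.trans (by positivity)
    · push Not at hneg
      have h1 : N K x * Real.exp ((1 / 3 - ε) * L) ≤
          64 * Real.exp ((2 / 3 + ε) * L) * Real.exp ((1 / 3 - ε) * L) := by
        have h2 : Real.exp ((2 / 3 + ε) * L) * Real.exp ((1 / 3 - ε) * L) = x := by
          rw [← Real.exp_add, ← hexp]
          congr 1
          ring
        rw [mul_assoc, h2]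
        exact ((mul_le_mul_of_nonneg_left hAm hneg.le).trans key).trans hx64
      exact le_of_mul_le_mul_right h1 (Real.exp_pos _)
  have hrp : (x : ℝ) ^ ((2 : ℝ) / 3 + ε) = Real.exp ((2 / 3 + ε) * L) := by
    rw [Real.rpow_def_of_pos hx0, ← hL]
    congr 1
    ring
  rw [hrp]
  exact hfin

end Pool.Agent.BDA
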