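import Pool.Agent.BDA.Defs

set_option autoImplicit false

/-! [BDA-CH] Small facts: binomial lower bound, the carry lemma, the number of forbidden classes. -/

namespace Pool.Agent.BDA

open Finset

/-- `(g/m)^m ≤ C(g,m)`: `C(g,m) = ∏_{i<m} (g-i)/(m-i)` and `(g-i)/(m-i) ≥ g/m`.  (Induction on `m`:
`C(g,m) = (g/m) C(g-1,m-1)` and `(g-1)/(m-1) ≥ g/m`.) -/
theorem choose_lower (g m : ℕ) (hm : 1 ≤ m) (hmg : m ≤ g) :
    ((g : ℝ) / m) ^ m ≤ (g.choose m : ℝ) := by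
  induction m, hm using Nat.le_induction generalizing g with
  | base => simp
  | succ m hm ih =>
    obtain ⟨g, rfl⟩ : ∃ g', g = g' + 1 := ⟨g - 1, by omega⟩
    have hmg' : m ≤ g := by omega
    have h1 := ih g hmg'
    have hm0 : (0 : ℝ) < m := by exact_mod_cast hm
    have hgm : (m : ℝ) ≤ g := by exact_mod_cast hmg'
    have h2 : (((g + 1 : ℕ) : ℝ) / ((m + 1 : ℕ) : ℝ)) ≤ (g : ℝ) / m := by
      rw [div_le_div_iff₀ (by positivity) hm0]
      push_cast
      nlinarith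
    have h3 : ((g + 1 : ℕ) : ℝ) * (g.choose m : ℝ) = ((g + 1).choose (m + 1) : ℝ) * ((m + 1 : ℕ) : ℝ) := by
      exact_mod_cast Nat.add_one_mul_choose_eq g m
    have hm1 : (0 : ℝ) < ((m + 1 : ℕ) : ℝ) := by positivity
    have h4 : (((g + 1).choose (m + 1) : ℕ) : ℝ) = ((g + 1 : ℕ) : ℝ) / ((m + 1 : ℕ) : ℝ) * (g.choose m : ℝ) := by
      rw [div_mul_eq_mul_div, h3, mul_div_assoc, div_self hm1.ne', mul_one]
    rw [h4, pow_succ']
    refine mul_le_mul_of_nonneg_left ?_ (by positivity)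
    exact (pow_le_pow_left₀ (by positivity) h2 m).trans h1

/-- A carry in the last digit: if `n % p + k % p ≥ p` then `p ∣ C(n+k,k)`.  Lucas
(`Choose.choose_modEq_choose_mod_mul_choose_div_nat`): `C(n+k,k) ≡ C((n+k) % p, k % p) · C(⌊(n+k)/p⌋, ⌊k/p⌋) mod p`, and
`(n+k) % p = n % p + k % p - p < k % p`, so the first factor is `0`. -/
theorem carry_dvd (p n k : ℕ) (hp : p.Prime) (h : p ≤ n % p + k % p) : p ∣ (n + k).choose k := by
  have hpF : Fact p.Prime := ⟨hp⟩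
  have h1 := Choose.choose_modEq_choose_mod_mul_choose_div_nat (n := n + k) (k := k) (p := p)
  have hn : n % p < p := Nat.mod_lt _ hp.pos
  have hk : k % p < p := Nat.mod_lt _ hp.pos
  have h2 : (n + k) % p = n % p + k % p - p := by
    rw [Nat.add_mod, Nat.mod_eq_sub_mod h, Nat.mod_eq_of_lt (by omega)]
  have h3 : (n % p + k % p - p).choose (k % p) = 0 := Nat.choose_eq_zero_of_lt (by omega)
  rw [h2, h3, zero_mul] at h1
  exact (Nat.modEq_zero_iff_dvd).1 h1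

/-- `#{s < p : (1-η) p ≤ s} ≥ η p - 1`, so `(η/2) (p - f) ≤ (η/2) p ≤ η p - 1 ≤ f` when `η p ≥ 2`. -/
theorem FB_card (η : ℝ) (p : ℕ) (hη : 0 < η) (hη1 : η ≤ 1) (hp : 2 ≤ η * p) :
    (η / 2) * ((p : ℝ) - (FB η p).card) ≤ (FB η p).card := by
  have hp0 : (0 : ℝ) < p := by
    by_contra h
    have : (p : ℝ) ≤ 0 := not_lt.1 h
    nlinarith [mul_nonpos_of_nonneg_of_nonpos hη.le this]
  have h0 : 0 ≤ (1 - η) * (p : ℝ) := mul_nonneg (by linarith) hp0.le
  obtain ⟨t, ht⟩ : ∃ t : ℕ, t = ⌈(1 - η) * (p : ℝ)⌉₊ := ⟨_, rfl⟩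
  have ht1 : (t : ℝ) < (1 - η) * p + 1 := by
    rw [ht]
    exact Nat.ceil_lt_add_one h0
  have hsub : Ico t p ⊆ FB η p := by
    intro s hs
    rw [mem_Ico] at hs
    unfold FB
    rw [mem_filter, mem_range]
    refine ⟨hs.2, (Nat.le_ceil _).trans ?_⟩
    rw [← ht]
    exact_mod_cast hs.1
  have hc : (p : ℝ) - t ≤ (FB η p).card := by
    have h1 := card_le_card hsub
    rw [Nat.card_Ico] at h1
    have h2 : (p : ℝ) - t ≤ ((p - t : ℕ) : ℝ) := by
      rcases le_total t p with h | h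
      · rw [Nat.cast_sub h]
      · have h3 : (p : ℝ) ≤ t := by exact_mod_cast h
        have h4 : (0 : ℝ) ≤ ((p - t : ℕ) : ℝ) := Nat.cast_nonneg _
        linarith
    exact h2.trans (by exact_mod_cast h1)
  have hf0 : (0 : ℝ) ≤ (FB η p).card := Nat.cast_nonneg _
  have h5 : η * (p : ℝ) - 1 ≤ (FB η p).card := by linarith
  nlinarith [mul_nonneg hη.le hf0]

end Pool.Agent.BDA
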