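import Pool.Agent.BDA.Defs
import Pool.Agent.E2P.H1
import Pool.Agent.IDE.SV2

set_option autoImplicit false

/-! [BDA-P1] Many primes `p ≤ K` with `K mod p` in the middle. -/

namespace Pool.Agent.BDA

open Finset

/-- Proof.  `E2P.cheb` gives `c₁` with `c₁ n / log n ≤ #{primes in (n, 2n]}` (`E2P.PM n`) for `n ≥ 2`; take `n = ⌊K/2⌋`:
at least `(c₁/3) K / log K` primes in `(K/2, K]` for `K ≥ 6`.  A prime in `(K/2, K]` which is not in `GP η K` lies in
`[K/(1+η), K]` or in `[K/2, K/(2-2η)]`, intervals of length `≤ η K`; by `Pool.Agent.IDE.brun_titchmarsh` with `s = 1`,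
`a = 0` (`Λ = η K ≥ 2`) each contains at most `C η K / log (η K) ≤ 2 C η K / log K` primes (for `K ≥ 1/η²`).  Choose
`η ≤ 1/4` with `4 C η ≤ c₁/6`, and `c = c₁/6`. -/
theorem primes_mid : ∃ η : ℝ, 0 < η ∧ η ≤ 1 / 4 ∧ ∃ c : ℝ, 0 < c ∧ ∃ K₀ : ℕ, 2 ≤ K₀ ∧ ∀ K : ℕ, K₀ ≤ K →
    c * K / Real.log K ≤ (GP η K).card := by
  obtain ⟨c₁, hc₁, hc₁1, hcheb⟩ := E2P.cheb
  obtain ⟨C, hC, hBT⟩ := Pool.Agent.IDE.brun_titchmarsh
  obtain ⟨η, hη⟩ : ∃ η : ℝ, η = min (1 / 4) (c₁ / (24 * C)) := ⟨_, rfl⟩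
  have hη0 : 0 < η := by
    rw [hη]
    exact lt_min (by norm_num) (by positivity)
  have hη4 : η ≤ 1 / 4 := by rw [hη]; exact min_le_left _ _
  have hηC : C * η ≤ c₁ / 24 := by
    have h1 : η ≤ c₁ / (24 * C) := by rw [hη]; exact min_le_right _ _
    calc C * η ≤ C * (c₁ / (24 * C)) := mul_le_mul_of_nonneg_left h1 hC.le
      _ = c₁ / 24 := by field_simp
  refine ⟨η, hη0, hη4, c₁ / 6, by positivity, ⌈1 / η ^ 2⌉₊ + ⌈2 / η⌉₊ + 6, by omega, ?_⟩
  intro K hK
  have hK6 : 6 ≤ K := by omega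
  have hKR : (6 : ℝ) ≤ K := by exact_mod_cast hK6
  have hK1 : 1 / η ^ 2 ≤ (K : ℝ) := by
    have h1 : ⌈1 / η ^ 2⌉₊ ≤ K := by omega
    exact (Nat.le_ceil _).trans (by exact_mod_cast h1)
  have hK2 : 2 / η ≤ (K : ℝ) := by
    have h1 : ⌈2 / η⌉₊ ≤ K := by omega
    exact (Nat.le_ceil _).trans (by exact_mod_cast h1)
  have hΛ2 : 2 ≤ η * K := by
    rw [div_le_iff₀ hη0] at hK2
    linarith
  have hlK : 0 < Real.log K := Real.log_pos (by linarith)
  -- log (η K) ≥ log K / 2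
  have hlog : Real.log K / 2 ≤ Real.log (η * K) := by
    have h1 : (K : ℝ) ≤ (η * K) ^ 2 := by
      rw [div_le_iff₀ (by positivity)] at hK1
      nlinarith
    have h2 := Real.log_le_log (by linarith) h1
    rw [Real.log_pow] at h2
    push_cast at h2
    linarith
  -- the interval bound
  have hint : ∀ (y : ℝ) (F : Finset ℕ), (∀ p ∈ F, p.Prime ∧ y ≤ p ∧ (p : ℝ) ≤ y + η * K) →
      (F.card : ℝ) ≤ 2 * (C * η) * K / Real.log K := by
    intro y F hF
    have h1 := hBT 1 0 y (η * K) F le_rfl (by norm_num) (by push_cast; linarith)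
      (fun p hp => ⟨(hF p hp).1, (hF p hp).2.1, (hF p hp).2.2, Nat.modEq_one⟩)
    rw [Nat.totient_one] at h1
    push_cast at h1
    rw [one_mul, div_one] at h1
    refine h1.trans ?_
    have h2 : 0 < Real.log K / 2 := by positivity
    calc C * (η * K) / Real.log (η * K) ≤ C * (η * K) / (Real.log K / 2) :=
          div_le_div_of_nonneg_left (by positivity) h2 hlog
      _ = 2 * (C * η) * K / Real.log K := by
          field_simp
  obtain ⟨n, hn⟩ : ∃ n : ℕ, n = K / 2 := ⟨_, rfl⟩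
  have hn3 : 3 ≤ n := by omega
  have hnK : 2 * n ≤ K := by omega
  have hKn : K ≤ 2 * n + 1 := by omega
  have hn3R : (3 : ℝ) ≤ n := by exact_mod_cast hn3
  have hnKR : 2 * (n : ℝ) ≤ K := by exact_mod_cast hnK
  have hKnR : (K : ℝ) ≤ 2 * n + 1 := by exact_mod_cast hKn
  have hPM : c₁ / 3 * K / Real.log K ≤ ((E2P.PM n).card : ℝ) := by
    refine le_trans ?_ (hcheb n (by omega))
    have hln : 0 < Real.log n := Real.log_pos (by linarith)
    have hll : Real.log n ≤ Real.log K := Real.log_le_log (by linarith) (by linarith)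
    calc c₁ / 3 * K / Real.log K ≤ c₁ * n / Real.log K := by
          apply div_le_div_of_nonneg_right _ hlK.le
          nlinarith
      _ ≤ c₁ * n / Real.log n := div_le_div_of_nonneg_left (by positivity) hln hll
  classical
  obtain ⟨FA, hFA⟩ : ∃ FA : Finset ℕ, FA = (E2P.PM n).filter (fun p : ℕ => (K : ℝ) - (p : ℝ) < η * (p : ℝ)) := ⟨_, rfl⟩
  obtain ⟨FB', hFB⟩ : ∃ FB' : Finset ℕ, FB' = (E2P.PM n).filter (fun p : ℕ => (1 - 2 * η) * (p : ℝ) < (K : ℝ) - (p : ℝ)) := ⟨_, rfl⟩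
  have hmem : ∀ p ∈ E2P.PM n, p.Prime ∧ n < p ∧ p ≤ 2 * n := by
    intro p hp
    simp only [E2P.PM, Finset.mem_filter, Finset.mem_Ioc] at hp
    tauto
  have hsub : E2P.PM n ⊆ GP η K ∪ (FA ∪ FB') := by
    intro p hp
    obtain ⟨h1, h2, h3⟩ := hmem p hp
    by_cases hA : (K : ℝ) - p < η * p
    · apply Finset.mem_union_right
      apply Finset.mem_union_left
      rw [hFA]
      exact Finset.mem_filter.2 ⟨hp, hA⟩
    · by_cases hB : (1 - 2 * η) * p < (K : ℝ) - p
      · apply Finset.mem_union_right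
        apply Finset.mem_union_right
        rw [hFB]
        exact Finset.mem_filter.2 ⟨hp, hB⟩
      · apply Finset.mem_union_left
        exact Finset.mem_filter.2 ⟨Finset.mem_Icc.2 ⟨h1.one_lt.le, by omega⟩, h1, not_lt.1 hA, not_lt.1 hB⟩
  have hcard : (E2P.PM n).card ≤ (GP η K).card + (FA.card + FB'.card) :=
    (Finset.card_le_card hsub).trans ((Finset.card_union_le _ _).trans
      (Nat.add_le_add_left (Finset.card_union_le _ _) _))
  have hcardR : ((E2P.PM n).card : ℝ) ≤ (GP η K).card + (FA.card + FB'.card) := by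
    exact_mod_cast hcard
  have hA := hint ((K : ℝ) - η * K) FA (by
    intro p hp
    rw [hFA, Finset.mem_filter] at hp
    obtain ⟨h1, h2, h3⟩ := hmem p hp.1
    have h4 := hp.2
    have h5 : (p : ℝ) ≤ K := by
      have : p ≤ K := by omega
      exact_mod_cast this
    refine ⟨h1, ?_, by linarith⟩
    have h6 : η * (p : ℝ) ≤ η * K := mul_le_mul_of_nonneg_left h5 hη0.le
    linarith)
  have hB := hint ((K : ℝ) / 2) FB' (by
    intro p hp
    rw [hFB, Finset.mem_filter] at hp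
    obtain ⟨h1, h2, h3⟩ := hmem p hp.1
    have h4 := hp.2
    have h5 : (n : ℝ) + 1 ≤ p := by exact_mod_cast h2
    have h6 : (p : ℝ) ≤ K := by
      have : p ≤ K := by omega
      exact_mod_cast this
    refine ⟨h1, by linarith, ?_⟩
    have h7 : η * (p : ℝ) ≤ η * K := mul_le_mul_of_nonneg_left h6 hη0.le
    nlinarith)
  have hCη : 2 * (C * η) * K / Real.log K + 2 * (C * η) * K / Real.log K ≤ c₁ / 6 * K / Real.log K := by
    rw [← add_div]
    apply div_le_div_of_nonneg_right _ hlK.le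
    nlinarith
  have h3 : c₁ / 3 * K / Real.log K = c₁ / 6 * K / Real.log K + c₁ / 6 * K / Real.log K := by ring
  linarith

end Pool.Agent.BDA
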