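import Pool.Agent.BDA.S3
import Pool.Agent.BDA.CH
import Pool.Agent.BDA.P1

set_option autoImplicit false

/-! [BDA-BB] The sieve bound for one block. -/

namespace Pool.Agent.BDA

open Finset

/-- Proof.  `η, c₀, K₀` from `primes_mid`; `η₁ = η/4`; `𝒩 = BN η₁ K x ⊆ range (x+1)`, `G = GP η K`, `F p = FB η p`,
`η' = η/2`.  Every `p ∈ G` has `2 p ≥ (2 - 2η) p ≥ K` hence `η p ≥ 2` for `K ≥ 4/η`, so `FB_card` applies.
Let `n ∈ 𝒩` with `k ∈ [K, (1+η₁) K]`, `NoSmall n k`, and `p ∈ G`.  `k - p ≥ K - p ≥ η p ≥ 0` and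
`k - p ≤ (K - p) + η₁ K ≤ (1 - 2η) p + (η/4) · 2 p < p`, so `k % p = k - p ≥ η p`.  As `p ≤ K ≤ k` is prime, `carry_dvd`
gives `n % p + k % p < p`, so `n % p < (1-η) p`, `n % p ∉ FB η p`.  `sieve_bound`:
`|𝒩| (η/2)^m C(|G|,m) ≤ 16 (x + 1 + K^{2m} + 1)`; `choose_lower` and `|G| ≥ c₀ K/log K` (so `m ≤ |G|` when
`m ≤ c₀ K/log K`): `C(|G|,m) ≥ (c₀ K/(m log K))^m`.  So `c = min (c₀) (c₀ η / 2)` (`= c₀ η/2`) works. -/
theorem block_bound : ∃ η₁ : ℝ, 0 < η₁ ∧ η₁ ≤ 1 / 16 ∧ ∃ c : ℝ, 0 < c ∧ ∃ K₀ : ℕ, 2 ≤ K₀ ∧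
    ∀ K m x : ℕ, K₀ ≤ K → 1 ≤ m → (m : ℝ) ≤ c * K / Real.log K →
      ((BN η₁ K x).card : ℝ) * (c * K / (m * Real.log K)) ^ m ≤ 16 * ((x : ℝ) + 2 + (K : ℝ) ^ (2 * m)) := by
  classical
  obtain ⟨η, hη, hη4, c₀, hc₀, K₁, hK₁, hP⟩ := primes_mid
  obtain ⟨K₂, hK₂⟩ := exists_nat_ge (4 / η)
  refine ⟨η / 4, by positivity, by linarith, c₀ * η / 2, by positivity, max (max K₁ K₂) 3,
    le_trans (by norm_num) (le_max_right _ _), ?_⟩
  intro K m x hK hm hmK
  have hKK₁ : K₁ ≤ K := le_trans (le_trans (le_max_left _ _) (le_max_left _ _)) hK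
  have hKK₂ : K₂ ≤ K := le_trans (le_trans (le_max_right _ _) (le_max_left _ _)) hK
  have hK3 : 3 ≤ K := le_trans (le_max_right _ _) hK
  have hK3' : (3 : ℝ) ≤ K := by exact_mod_cast hK3
  have hKη : 4 / η ≤ (K : ℝ) := hK₂.trans (by exact_mod_cast hKK₂)
  have hKη' : 4 ≤ η * K := by
    rw [div_le_iff₀ hη] at hKη
    linarith
  have hlog : 0 < Real.log K := Real.log_pos (by linarith)
  have hG := hP K hKK₁
  have hmem : ∀ p ∈ GP η K, p.Prime ∧ p ≤ K ∧ η * (p : ℝ) ≤ (K : ℝ) - p ∧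
      (K : ℝ) - p ≤ (1 - 2 * η) * p := by
    intro p hp
    unfold GP at hp
    rw [mem_filter, mem_Icc] at hp
    exact ⟨hp.2.1, hp.1.2, hp.2.2.1, hp.2.2.2⟩
  have hm0 : (0 : ℝ) < m := by exact_mod_cast hm
  have hgm : (m : ℝ) ≤ (GP η K).card := by
    refine le_trans hmK (le_trans ?_ hG)
    rw [div_le_div_iff_of_pos_right hlog]
    have h1 : c₀ * η / 2 * K = c₀ * K * (η / 2) := by ring
    rw [h1]
    have h2 : 0 < c₀ * K := by positivity
    nlinarith
  have hsieve := sieve_bound (η / 2) (by positivity) (GP η K) K m (x + 1) (by omega)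
    (fun p hp => ⟨(hmem p hp).1, (hmem p hp).2.1⟩) (FB η)
    (fun p _ => filter_subset _ _)
    (fun p hp => by
      obtain ⟨-, -, -, h4⟩ := hmem p hp
      have hp0 : (0 : ℝ) ≤ p := Nat.cast_nonneg p
      refine FB_card η p hη (by linarith) ?_
      nlinarith)
    (BN (η / 4) K x)
    (fun n hn => by
      unfold BN at hn
      rw [mem_filter, mem_Icc] at hn
      rw [mem_range]
      omega)
    (fun n hn p hp hF => by
      obtain ⟨hpp, hpK, h3, h4⟩ := hmem p hp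
      unfold BN at hn
      rw [mem_filter] at hn
      obtain ⟨-, k, hKk, hk, hNS⟩ := hn
      unfold FB at hF
      rw [mem_filter] at hF
      have hp0 : (0 : ℝ) < p := by exact_mod_cast hpp.pos
      have hKk' : (K : ℝ) ≤ k := by exact_mod_cast hKk
      have h5 : (k : ℝ) < 2 * p := by nlinarith
      have h5' : k < 2 * p := by exact_mod_cast h5
      have hpk : p ≤ k := hpK.trans hKk
      have hmod : k % p = k - p := by
        have e1 : k = (k - p) + p := by omega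
        rw [e1, Nat.add_mod_right, Nat.mod_eq_of_lt (by omega)]
        omega
      have h6 : ¬ p ≤ n % p + k % p := fun h => hNS p hpp hpk (carry_dvd p n k hpp h)
      rw [hmod] at h6
      have h7 : n % p + k < 2 * p := by omega
      have h7' : ((n % p : ℕ) : ℝ) + k < 2 * p := by exact_mod_cast h7
      have h8 := hF.2
      nlinarith)
  have hch := choose_lower (GP η K).card m hm (by exact_mod_cast hgm)
  have hcast : (((x + 1 : ℕ) : ℝ) + (K : ℝ) ^ (2 * m) + 1) = (x : ℝ) + 2 + (K : ℝ) ^ (2 * m) := by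
    push_cast
    ring
  rw [hcast] at hsieve
  refine le_trans (mul_le_mul_of_nonneg_left ?_ (Nat.cast_nonneg _)) hsieve
  have h9 : c₀ * η / 2 * K / (m * Real.log K) = (η / 2) * (c₀ * K / Real.log K / m) := by
    field_simp
  rw [h9, mul_pow]
  refine mul_le_mul_of_nonneg_left (le_trans ?_ hch) (by positivity)
  refine pow_le_pow_left₀ (by positivity) ?_ m
  exact div_le_div_of_nonneg_right hG hm0.le

end Pool.Agent.BDA
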