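import Mathlib

set_option autoImplicit false

/-! [BDA] MP_4cb515_nt.AlmostAll: deficiency of binomial coefficients for almost all n.  Definitions. -/

namespace Pool.Agent.BDA

open Finset

/-- `C(n+k,k)` has no prime factor `≤ k`. -/
def NoSmall (n k : ℕ) : Prop := ∀ p : ℕ, p.Prime → p ≤ k → ¬ p ∣ (n + k).choose k

/-- `e(t) = exp(2 π i t)`. -/
noncomputable def e (t : ℝ) : ℂ := Complex.exp (2 * Real.pi * Complex.I * t)

/-- The primes `p` with `η p ≤ K - p ≤ (1 - 2 η) p`. -/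
noncomputable def GP (η : ℝ) (K : ℕ) : Finset ℕ :=
  (Icc 1 K).filter (fun p => p.Prime ∧ η * (p : ℝ) ≤ (K : ℝ) - p ∧ (K : ℝ) - p ≤ (1 - 2 * η) * p)

/-- The forbidden residues modulo `p`. -/
noncomputable def FB (η : ℝ) (p : ℕ) : Finset ℕ :=
  (range p).filter (fun s => (1 - η) * (p : ℝ) ≤ s)

/-- The `n ≤ x` for which some `k` in the block `[K, (1+η₁) K]` has no prime `≤ k` dividing `C(n+k,k)`. -/
noncomputable def BN (η₁ : ℝ) (K x : ℕ) : Finset ℕ := by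
  classical
  exact (Icc 1 x).filter (fun n => ∃ k : ℕ, K ≤ k ∧ (k : ℝ) ≤ (1 + η₁) * K ∧ NoSmall n k)

/-- The `z`-smooth integers in `[1, y]`. -/
noncomputable def SMC (z : ℝ) (y : ℕ) : Finset ℕ := by
  classical
  exact (Icc 1 y).filter (fun m => ∀ p : ℕ, p.Prime → p ∣ m → (p : ℝ) ≤ z)

/-- The exceptional set of the theorem. -/
noncomputable def EX (x : ℕ) : Finset ℕ := by
  classical
  exact (Icc 1 x).filter (fun n => ∃ k : ℕ, 1 ≤ k ∧ (k : ℝ) ≤ (n : ℝ) ^ ((2 : ℝ) / 3) ∧ NoSmall n k ∧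
    ((Real.log n) ^ 3 ≤ k ∨ ∃ i ∈ Icc 1 k, ∀ p : ℕ, p.Prime → p ∣ n + i → p ≤ k))

end Pool.Agent.BDA
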