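import Pool.Agent.BDA.Defs

set_option autoImplicit false

/-! [BDA-GR] The geometric grid. -/

namespace Pool.Agent.BDA

open Finset

/-- Proof.  Given `k ≥ 1`, let `j = ⌊log k / log (1+η₁)⌋₊`: `(1+η₁)^j ≤ k < (1+η₁)^{j+1}`; `K = ⌈(1+η₁)^j⌉₊ ≤ k`
(`k` is an integer) and `k ≤ (1+η₁)^{j+1} ≤ (1+η₁) K`.  `j ≤ log x/log (1+η₁)` for `k ≤ x`.  So take
`grid x = (range (⌊log x/log (1+η₁)⌋₊ + 1)).image (fun j => ⌈(1+η₁)^j⌉₊)`, of at most `log x/log (1+η₁) + 1` elements. -/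
theorem grid (η₁ : ℝ) (hη : 0 < η₁) : ∃ C : ℝ, 0 < C ∧ ∀ x : ℕ, 2 ≤ x → ∃ J : Finset ℕ,
    (J.card : ℝ) ≤ C * Real.log x ∧ (∀ K ∈ J, 1 ≤ K) ∧
      ∀ k : ℕ, 1 ≤ k → k ≤ x → ∃ K ∈ J, K ≤ k ∧ (k : ℝ) ≤ (1 + η₁) * K := by
  have hb : (1 : ℝ) < 1 + η₁ := by linarith
  have hb0 : (0 : ℝ) < 1 + η₁ := by linarith
  have hL : 0 < Real.log (1 + η₁) := Real.log_pos hb
  have hL2 : 0 < Real.log 2 := Real.log_pos (by norm_num)
  refine ⟨1 / Real.log (1 + η₁) + 1 / Real.log 2, by positivity, fun x hx => ?_⟩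
  have hx1 : (1 : ℝ) ≤ (x : ℝ) := by
    have : (2 : ℝ) ≤ (x : ℝ) := by exact_mod_cast hx
    linarith
  have hlx : Real.log 2 ≤ Real.log x :=
    Real.log_le_log (by norm_num) (by exact_mod_cast hx)
  refine ⟨(range (⌊Real.log x / Real.log (1 + η₁)⌋₊ + 1)).image (fun j => ⌈(1 + η₁) ^ j⌉₊),
    ?_, ?_, ?_⟩
  · have h1 : (((range (⌊Real.log x / Real.log (1 + η₁)⌋₊ + 1)).image
        (fun j => ⌈(1 + η₁) ^ j⌉₊)).card : ℝ) ≤ ((⌊Real.log x / Real.log (1 + η₁)⌋₊ + 1 : ℕ) : ℝ) := by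
      exact_mod_cast (card_image_le.trans (card_range _).le)
    refine h1.trans ?_
    push_cast
    have h2 : ((⌊Real.log x / Real.log (1 + η₁)⌋₊ : ℕ) : ℝ) ≤ Real.log x / Real.log (1 + η₁) :=
      Nat.floor_le (by positivity)
    have h3 : 1 ≤ 1 / Real.log 2 * Real.log x := by
      rw [one_div, inv_mul_eq_div, le_div_iff₀ hL2, one_mul]
      exact hlx
    calc ((⌊Real.log x / Real.log (1 + η₁)⌋₊ : ℕ) : ℝ) + 1
        ≤ Real.log x / Real.log (1 + η₁) + 1 / Real.log 2 * Real.log x := add_le_add h2 h3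
      _ = (1 / Real.log (1 + η₁) + 1 / Real.log 2) * Real.log x := by ring
  · intro K hK
    obtain ⟨j, -, rfl⟩ := mem_image.1 hK
    exact Nat.one_le_ceil_iff.2 (pow_pos hb0 j)
  · intro k hk1 hkx
    have hk1' : (1 : ℝ) ≤ (k : ℝ) := by exact_mod_cast hk1
    have hk0 : (0 : ℝ) < (k : ℝ) := by linarith
    have hkx' : (k : ℝ) ≤ (x : ℝ) := by exact_mod_cast hkx
    have hlk : 0 ≤ Real.log k := Real.log_nonneg hk1'
    set j := ⌊Real.log k / Real.log (1 + η₁)⌋₊ with hj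
    have h1 : (j : ℝ) ≤ Real.log k / Real.log (1 + η₁) := Nat.floor_le (by positivity)
    have h2 : Real.log k / Real.log (1 + η₁) < (j : ℝ) + 1 := Nat.lt_floor_add_one _
    have h3 : (1 + η₁) ^ j ≤ (k : ℝ) := by
      rw [← Real.log_le_log_iff (pow_pos hb0 j) hk0, Real.log_pow]
      exact (le_div_iff₀ hL).1 h1
    have h4 : (k : ℝ) ≤ (1 + η₁) ^ (j + 1) := by
      rw [← Real.log_le_log_iff hk0 (pow_pos hb0 _), Real.log_pow]
      push_cast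
      exact ((div_lt_iff₀ hL).1 h2).le
    refine ⟨⌈(1 + η₁) ^ j⌉₊, mem_image.2 ⟨j, ?_, rfl⟩, Nat.ceil_le.2 h3, ?_⟩
    · rw [mem_range, Nat.lt_succ_iff]
      apply Nat.floor_le_floor
      exact div_le_div_of_nonneg_right (Real.log_le_log hk0 hkx') hL.le
    · refine h4.trans ?_
      rw [pow_succ, mul_comm]
      exact mul_le_mul_of_nonneg_left (Nat.le_ceil _) hb0.le

end Pool.Agent.BDA
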