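import Pool.Agent.BDA.R1

set_option autoImplicit false

/-! [BDA-R2] The `(log x)³`-smooth numbers. -/

namespace Pool.Agent.BDA

open Finset

/-- Proof.  Let `z = (log x)³`, `σ = 2/3 + ε/4` if `ε ≤ 1` (wlog `ε ≤ 1`: for larger `ε` use the bound for `ε = 1`, `x ≥ 1`).
For `x ≥ x₀`, `1 ≤ z ≤ x`.  If `n ≤ x` and `n + i` (`1 ≤ i ≤ k ≤ z`) has all its prime factors `≤ k ≤ z`, then
`n + i ∈ SMC z (2x)` and `n = (n+i) - i` with `i ≤ z`: the number of such `n` is at most `z · #(SMC z (2x))` (injection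
`n ↦ (i, n+i)` for a chosen `i`).  By `rankin`: `≤ (log x)³ (2x)^σ exp (C (log x)^{3(1-σ)})`, and
`3(1-σ) = 1 - 3ε/4 < 1`, so `exp (C (log x)^{1-3ε/4}) ≤ x^{ε/4}` and `(log x)³ ≤ x^{ε/4}` for `x ≥ x₀`
(`isLittleO_log_rpow_atTop` etc.).  Total `≤ 2 x^{2/3+3ε/4}`. -/
theorem smooth_part (ε : ℝ) (hε : 0 < ε) : ∃ C : ℝ, ∃ x₀ : ℕ, ∀ x : ℕ, x₀ ≤ x → ∀ T : Finset ℕ,
    (∀ n ∈ T, 1 ≤ n ∧ n ≤ x ∧ ∃ k : ℕ, 1 ≤ k ∧ (k : ℝ) ≤ (Real.log x) ^ 3 ∧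
      ∃ i ∈ Icc 1 k, ∀ p : ℕ, p.Prime → p ∣ n + i → p ≤ k) →
    (T.card : ℝ) ≤ C * (x : ℝ) ^ ((2 : ℝ) / 3 + ε) := by
  obtain ⟨δ, hδ⟩ : ∃ δ : ℝ, δ = min ε 1 / 4 := ⟨_, rfl⟩
  have hδ0 : 0 < δ := by
    rw [hδ]
    have : 0 < min ε 1 := lt_min hε one_pos
    linarith
  have hδε : 4 * δ ≤ ε := by
    rw [hδ]
    linarith [min_le_left ε 1]
  have hδ1 : 4 * δ ≤ 1 := by
    rw [hδ]
    linarith [min_le_right ε 1]
  obtain ⟨σ, hσ⟩ : ∃ σ : ℝ, σ = 2 / 3 + δ := ⟨_, rfl⟩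
  have hσ0 : 0 < σ := by rw [hσ]; linarith
  have hσ1 : σ < 1 := by rw [hσ]; linarith
  obtain ⟨C, hC, hR⟩ := rankin σ hσ0 hσ1
  obtain ⟨L₀, hL₀⟩ : ∃ L₀ : ℝ, L₀ = 1 + (C / δ) ^ (1 / (3 * δ)) + 24 / δ ^ 4 := ⟨_, rfl⟩
  have hp1 : 0 < (C / δ) ^ (1 / (3 * δ)) := by positivity
  have hp2 : 0 < 24 / δ ^ 4 := by positivity
  refine ⟨2, ⌈Real.exp L₀⌉₊, ?_⟩
  intro x hx T hT
  have hxr : Real.exp L₀ ≤ x := (Nat.le_ceil _).trans (Nat.cast_le.2 hx)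
  have hx0 : (0 : ℝ) < x := (Real.exp_pos _).trans_le hxr
  have hx1 : (1 : ℝ) ≤ x := by
    refine le_trans ?_ hxr
    rw [Real.one_le_exp_iff]
    linarith
  obtain ⟨L, hL⟩ : ∃ L, L = Real.log x := ⟨_, rfl⟩
  have hLL : L₀ ≤ L := by
    rw [hL]
    exact (Real.le_log_iff_exp_le hx0).2 hxr
  have hexp : Real.exp L = x := by rw [hL, Real.exp_log hx0]
  have hL1 : 1 ≤ L := by linarith
  have hL0 : 0 < L := by linarith
  rw [← hL] at hT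
  -- `L ^ 3 ≤ exp (δ L)`
  have hL3 : L ^ 3 ≤ Real.exp (δ * L) := by
    have h1 := Real.pow_div_factorial_le_exp (δ * L) (by positivity) 4
    refine le_trans ?_ h1
    have h2 : ((Nat.factorial 4 : ℕ) : ℝ) = 24 := by norm_num [Nat.factorial]
    rw [h2, le_div_iff₀ (by norm_num), mul_pow]
    have h3 : 24 / δ ^ 4 ≤ L := by linarith
    rw [div_le_iff₀ (by positivity)] at h3
    have h4 : 0 < L ^ 3 := by positivity
    nlinarith
  have hzx : L ^ 3 ≤ x := by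
    refine hL3.trans ?_
    rw [← hexp]
    apply Real.exp_le_exp.2
    nlinarith
  have hz1 : 1 ≤ L ^ 3 := one_le_pow₀ hL1
  -- the exponential factor
  have hCL : C * (L ^ 3) ^ (1 - σ) ≤ δ * L := by
    have h1 : (L ^ 3) ^ (1 - σ) = L / L ^ (3 * δ) := by
      rw [← Real.rpow_natCast L 3, ← Real.rpow_mul hL0.le, hσ]
      have h2 : ((3 : ℕ) : ℝ) * (1 - (2 / 3 + δ)) = 1 - 3 * δ := by push_cast; ring
      rw [h2, Real.rpow_sub hL0, Real.rpow_one]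
    have h2 : C / δ ≤ L ^ (3 * δ) := by
      have h3 : C / δ = ((C / δ) ^ (1 / (3 * δ))) ^ (3 * δ) := by
        rw [← Real.rpow_mul (by positivity), one_div, inv_mul_cancel₀ (by positivity), Real.rpow_one]
      rw [h3]
      exact Real.rpow_le_rpow hp1.le (by linarith) (by positivity)
    have h4 : 0 < L ^ (3 * δ) := by positivity
    rw [h1, mul_div_assoc', div_le_iff₀ h4]
    rw [div_le_iff₀ hδ0] at h2
    have h5 := mul_le_mul_of_nonneg_right h2 hL0.le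
    linarith
  -- counting
  have hch : ∀ n : ℕ, ∃ i : ℕ, n ∈ T → 1 ≤ i ∧ (i : ℝ) ≤ L ^ 3 ∧
      ∀ p : ℕ, p.Prime → p ∣ n + i → (p : ℝ) ≤ L ^ 3 := by
    intro n
    by_cases hn : n ∈ T
    · obtain ⟨_, _, k, hk1, hk2, i, hi, hp⟩ := hT n hn
      rw [Finset.mem_Icc] at hi
      refine ⟨i, fun _ => ⟨hi.1, le_trans (by exact_mod_cast hi.2) hk2, fun p hpp hpd => ?_⟩⟩
      exact le_trans (by exact_mod_cast hp p hpp hpd) hk2
    · exact ⟨0, fun h => absurd h hn⟩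
  choose i hi using hch
  have hcard : T.card ≤ (Finset.Icc 1 ⌊L ^ 3⌋₊ ×ˢ SMC (L ^ 3) (2 * x)).card := by
    refine Finset.card_le_card_of_injOn (fun n => (i n, n + i n)) (fun n hn => ?_) ?_
    · have hn' : n ∈ T := hn
      obtain ⟨h1, h2, h3⟩ := hi n hn'
      obtain ⟨h4, h5, _⟩ := hT n hn'
      have h6 : i n ≤ x := by
        have : (i n : ℝ) ≤ x := h2.trans hzx
        exact_mod_cast this
      show (i n, n + i n) ∈ Finset.Icc 1 ⌊L ^ 3⌋₊ ×ˢ SMC (L ^ 3) (2 * x)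
      rw [Finset.mem_product, Finset.mem_Icc, r1_mem]
      exact ⟨⟨h1, Nat.le_floor h2⟩, ⟨by omega, by omega⟩, h3⟩
    · intro n _ n' _ h
      have h1 := congrArg Prod.fst h
      have h2 := congrArg Prod.snd h
      simp only at h1 h2
      omega
  rw [Finset.card_product, Nat.card_Icc, Nat.add_sub_cancel] at hcard
  have hcard' : (T.card : ℝ) ≤ (⌊L ^ 3⌋₊ : ℝ) * ((SMC (L ^ 3) (2 * x)).card : ℝ) := by
    exact_mod_cast hcard
  have hx1' : 1 ≤ x := by exact_mod_cast hx1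
  have hR' := hR (L ^ 3) (2 * x) hz1 (by omega)
  have h2x : (((2 * x : ℕ)) : ℝ) ^ σ ≤ 2 * (x : ℝ) ^ σ := by
    push_cast
    rw [Real.mul_rpow (by norm_num) hx0.le]
    refine mul_le_mul_of_nonneg_right ?_ (by positivity)
    calc (2 : ℝ) ^ σ ≤ (2 : ℝ) ^ (1 : ℝ) := Real.rpow_le_rpow_of_exponent_le (by norm_num) hσ1.le
      _ = 2 := Real.rpow_one 2
  have hfl : ((⌊L ^ 3⌋₊ : ℕ) : ℝ) ≤ Real.exp (δ * L) := (Nat.floor_le (by positivity)).trans hL3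
  have hE : Real.exp (C * (L ^ 3) ^ (1 - σ)) ≤ Real.exp (δ * L) := Real.exp_le_exp.2 hCL
  have hSM : ((SMC (L ^ 3) (2 * x)).card : ℝ) ≤ 2 * (x : ℝ) ^ σ * Real.exp (δ * L) :=
    hR'.trans (mul_le_mul h2x hE (Real.exp_pos _).le (by positivity))
  have hfin : (T.card : ℝ) ≤ Real.exp (δ * L) * (2 * (x : ℝ) ^ σ * Real.exp (δ * L)) :=
    hcard'.trans (mul_le_mul hfl hSM (Nat.cast_nonneg _) (Real.exp_pos _).le)
  refine hfin.trans ?_
  have hrp : ∀ t : ℝ, (x : ℝ) ^ t = Real.exp (t * L) := by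
    intro t
    rw [Real.rpow_def_of_pos hx0, ← hL, mul_comm]
  rw [hrp, hrp]
  have h1 : Real.exp (δ * L) * (2 * Real.exp (σ * L) * Real.exp (δ * L)) =
      2 * Real.exp ((σ + 2 * δ) * L) := by
    rw [show (σ + 2 * δ) * L = δ * L + σ * L + δ * L by ring, Real.exp_add, Real.exp_add]
    ring
  rw [h1]
  refine mul_le_mul_of_nonneg_left (Real.exp_le_exp.2 ?_) (by norm_num)
  refine mul_le_mul_of_nonneg_right ?_ hL0.le
  rw [hσ]
  linarith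

end Pool.Agent.BDA
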