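import Pool.Agent.BDA.BB
import Pool.Agent.BDA.A1
import Pool.Agent.BDA.A2
import Pool.Agent.BDA.R2
import Pool.Agent.BDA.GR

set_option autoImplicit false

/-! [BDA-FIN] Assembly. -/

namespace Pool.Agent.BDA

open Finset

private theorem fin_log (ε C : ℝ) (hε : 0 < ε) (hC : 0 < C) : ∃ x₀ : ℕ, ∀ x : ℕ, x₀ ≤ x →
    C * Real.log x ≤ (x : ℝ) ^ ε := by
  have h := (isLittleO_log_rpow_atTop hε).bound (show (0 : ℝ) < 1 / C by positivity)
  rw [Filter.eventually_atTop] at h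
  obtain ⟨a, ha⟩ := h
  refine ⟨max 1 ⌈a⌉₊, fun x hx => ?_⟩
  have h1 : (1 : ℝ) ≤ x := by exact_mod_cast (le_max_left _ _).trans hx
  have h2 : a ≤ x := by
    have h3 : ⌈a⌉₊ ≤ x := (le_max_right _ _).trans hx
    exact (Nat.le_ceil a).trans (by exact_mod_cast h3)
  have h4 := ha x h2
  rw [Real.norm_of_nonneg (Real.log_nonneg h1),
    Real.norm_of_nonneg (Real.rpow_nonneg (by linarith) _)] at h4
  rw [div_mul_eq_mul_div, one_mul, le_div_iff₀ hC] at h4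
  linarith

theorem almost_all (ε : ℝ) (hε : 0 < ε) : ∃ C : ℝ, ∀ x : ℕ, 1 ≤ x →
    ((EX x).card : ℝ) ≤ C * (x : ℝ) ^ ((2 : ℝ) / 3 + ε) := by
  classical
  obtain ⟨η₁, hη0, hη1, c, hc, K₀, hK₀, hBB⟩ := block_bound
  have hBB' : ∀ K m x : ℕ, K₀ ≤ K → 1 ≤ m → (m : ℝ) ≤ c * K / Real.log K →
      (fun K x => ((BN η₁ K x).card : ℝ)) K x * (c * K / (m * Real.log K)) ^ m ≤
        16 * ((x : ℝ) + 2 + (K : ℝ) ^ (2 * m)) := hBB
  obtain ⟨ε₁, hε₁, C2, x2, hA2⟩ := small_blocks c hc K₀ hK₀ _ hBB' (ε / 2) (by positivity)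
  obtain ⟨C1, x1, hA1⟩ := large_blocks c hc K₀ hK₀ _ hBB' (ε / 2) ε₁ (by positivity) hε₁
  obtain ⟨C3, x3, hS⟩ := smooth_part ε hε
  obtain ⟨C4, hC4, hG⟩ := grid η₁ hη0
  obtain ⟨x5, hx5⟩ := fin_log (ε / 2) C4 (by positivity) hC4
  obtain ⟨X, hX⟩ : ∃ X : ℕ, X = x1 + x2 + x3 + x5 + 3 := ⟨_, rfl⟩
  obtain ⟨D, hD⟩ : ∃ D : ℝ, D = max C1 0 + max C2 0 := ⟨_, rfl⟩
  have hD0 : 0 ≤ D := by rw [hD]; positivity
  refine ⟨X + 2 + D + max C3 0, fun x hx => ?_⟩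
  have hx1 : (1 : ℝ) ≤ x := by exact_mod_cast hx
  have hpow : (1 : ℝ) ≤ (x : ℝ) ^ ((2 : ℝ) / 3 + ε) := Real.one_le_rpow hx1 (by positivity)
  have hcardx : ((EX x).card : ℝ) ≤ x := by
    have h : (EX x).card ≤ (Icc 1 x).card := by
      unfold EX
      exact card_filter_le _ _
    rw [Nat.card_Icc] at h
    exact_mod_cast h.trans (by omega)
  by_cases hxX : x < X
  · have h1 : (x : ℝ) ≤ X := by exact_mod_cast hxX.le
    have h2 : (0 : ℝ) ≤ 2 + D + max C3 0 := by positivity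
    calc ((EX x).card : ℝ) ≤ X := hcardx.trans h1
      _ ≤ (X + 2 + D + max C3 0) * 1 := by linarith
      _ ≤ _ := mul_le_mul_of_nonneg_left hpow (by positivity)
  push Not at hxX
  have hx2 : 2 ≤ x := by omega
  obtain ⟨J, hJ, hJ1, hJk⟩ := hG x hx2
  -- the three parts
  obtain ⟨y, hy⟩ : ∃ y : ℝ, y = (x : ℝ) ^ ((2 : ℝ) / 3) := ⟨_, rfl⟩
  have hy1 : 1 ≤ y := by rw [hy]; exact Real.one_le_rpow hx1 (by norm_num)
  obtain ⟨A, hA⟩ : ∃ A : Finset ℕ, A = range (⌊y⌋₊ + 1) := ⟨_, rfl⟩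
  have hLx : 0 < Real.log x := Real.log_pos (by exact_mod_cast (by omega : 1 < x))
  obtain ⟨JJ, hJJ⟩ : ∃ JJ : Finset ℕ, JJ = J.filter (fun K : ℕ => (1 / 4) * (Real.log x) ^ 3 ≤ K ∧
      (K : ℝ) ≤ (x : ℝ) ^ ((2 : ℝ) / 3)) := ⟨_, rfl⟩
  obtain ⟨B, hB⟩ : ∃ B : Finset ℕ, B = JJ.biUnion (fun K => BN η₁ K x) := ⟨_, rfl⟩
  obtain ⟨T, hT⟩ : ∃ T : Finset ℕ, T = (Icc 1 x).filter (fun n => ∃ k : ℕ, 1 ≤ k ∧
      (k : ℝ) ≤ (Real.log x) ^ 3 ∧ ∃ i ∈ Icc 1 k, ∀ p : ℕ, p.Prime → p ∣ n + i → p ≤ k) := ⟨_, rfl⟩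
  have hsub : EX x ⊆ A ∪ (B ∪ T) := by
    intro n hn
    unfold EX at hn
    rw [mem_filter, mem_Icc] at hn
    obtain ⟨⟨hn1, hnx⟩, k, hk1, hkn, hns, hor⟩ := hn
    rw [mem_union, mem_union]
    by_cases hny : (n : ℝ) ≤ y
    · left
      rw [hA, mem_range]
      have : n ≤ ⌊y⌋₊ := Nat.le_floor hny
      omega
    right
    push Not at hny
    have hn1' : (1 : ℝ) ≤ n := by exact_mod_cast hn1
    have hnx' : (n : ℝ) ≤ x := by exact_mod_cast hnx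
    have hkx : (k : ℝ) ≤ (x : ℝ) ^ ((2 : ℝ) / 3) :=
      hkn.trans (Real.rpow_le_rpow (by linarith) hnx' (by norm_num))
    have hlogn : (2 / 3) * Real.log x ≤ Real.log n := by
      have h := Real.log_le_log (by linarith) hny.le
      rw [hy, Real.log_rpow (by linarith)] at h
      exact h
    have hlogn3 : (8 / 27) * (Real.log x) ^ 3 ≤ (Real.log n) ^ 3 := by
      have h := pow_le_pow_left₀ (by positivity) hlogn 3
      calc (8 / 27) * (Real.log x) ^ 3 = (2 / 3 * Real.log x) ^ 3 := by ring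
        _ ≤ _ := h
    by_cases hkl : (8 / 27) * (Real.log x) ^ 3 ≤ k
    · left
      have hkx' : k ≤ x := by
        have h1 : (x : ℝ) ^ ((2 : ℝ) / 3) ≤ (x : ℝ) ^ (1 : ℝ) :=
          Real.rpow_le_rpow_of_exponent_le hx1 (by norm_num)
        rw [Real.rpow_one] at h1
        exact_mod_cast hkx.trans h1
      obtain ⟨K, hKJ, hKk, hkK⟩ := hJk k hk1 hkx'
      rw [hB, mem_biUnion]
      refine ⟨K, ?_, ?_⟩
      · rw [hJJ, mem_filter]
        refine ⟨hKJ, ?_, le_trans (by exact_mod_cast hKk) hkx⟩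
        have hK0 : (0 : ℝ) ≤ K := Nat.cast_nonneg K
        have h3 : (k : ℝ) ≤ (17 / 16) * K := by
          refine hkK.trans (mul_le_mul_of_nonneg_right ?_ hK0)
          linarith
        have h4 : 0 ≤ (Real.log x) ^ 3 := by positivity
        nlinarith
      · unfold BN
        rw [mem_filter, mem_Icc]
        exact ⟨⟨hn1, hnx⟩, k, hKk, hkK, hns⟩
    · right
      push Not at hkl
      rw [hT, mem_filter, mem_Icc]
      refine ⟨⟨hn1, hnx⟩, k, hk1, ?_, ?_⟩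
      · have h4 : 0 ≤ (Real.log x) ^ 3 := by positivity
        linarith
      · rcases hor with h | h
        · exfalso
          linarith
        · exact h
  have hAc : (A.card : ℝ) ≤ y + 1 := by
    rw [hA, card_range]
    push_cast
    have := Nat.floor_le (show 0 ≤ y by linarith)
    linarith
  have hTc : (T.card : ℝ) ≤ C3 * (x : ℝ) ^ ((2 : ℝ) / 3 + ε) := by
    apply hS x (by omega) T
    intro n hn
    rw [hT, mem_filter, mem_Icc] at hn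
    exact ⟨hn.1.1, hn.1.2, hn.2⟩
  have hBNc : ∀ K ∈ JJ, ((BN η₁ K x).card : ℝ) ≤ D * (x : ℝ) ^ ((2 : ℝ) / 3 + ε / 2) := by
    intro K hK
    rw [hJJ, mem_filter] at hK
    have hp0 : 0 ≤ (x : ℝ) ^ ((2 : ℝ) / 3 + ε / 2) := by positivity
    have hm1 : C1 ≤ D := by
      rw [hD]
      have := le_max_left C1 0
      have := le_max_right C2 0
      linarith
    have hm2 : C2 ≤ D := by
      rw [hD]
      have := le_max_left C2 0
      have := le_max_right C1 0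
      linarith
    rcases lt_or_ge (K : ℝ) ((x : ℝ) ^ ε₁) with h | h
    · exact (hA2 x K (by omega) hK.2.1 h).trans (mul_le_mul_of_nonneg_right hm2 hp0)
    · exact (hA1 x K (by omega) h hK.2.2).trans (mul_le_mul_of_nonneg_right hm1 hp0)
  have hBc : (B.card : ℝ) ≤ D * (x : ℝ) ^ ((2 : ℝ) / 3 + ε) := by
    have h1 : (B.card : ℝ) ≤ ∑ K ∈ JJ, ((BN η₁ K x).card : ℝ) := by
      rw [hB]
      exact_mod_cast card_biUnion_le
    have h2 : ∑ K ∈ JJ, ((BN η₁ K x).card : ℝ) ≤ JJ.card * (D * (x : ℝ) ^ ((2 : ℝ) / 3 + ε / 2)) := by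
      rw [← nsmul_eq_mul]
      exact sum_le_card_nsmul _ _ _ hBNc
    have h3 : (JJ.card : ℝ) ≤ (x : ℝ) ^ (ε / 2) := by
      have h4 : JJ.card ≤ J.card := by
        rw [hJJ]
        exact card_filter_le _ _
      have h5 : (JJ.card : ℝ) ≤ J.card := by exact_mod_cast h4
      exact h5.trans (hJ.trans (hx5 x (by omega)))
    have h6 : (x : ℝ) ^ ((2 : ℝ) / 3 + ε) = (x : ℝ) ^ (ε / 2) * (x : ℝ) ^ ((2 : ℝ) / 3 + ε / 2) := by
      rw [← Real.rpow_add (by linarith)]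
      congr 1
      ring
    calc (B.card : ℝ) ≤ JJ.card * (D * (x : ℝ) ^ ((2 : ℝ) / 3 + ε / 2)) := h1.trans h2
      _ ≤ (x : ℝ) ^ (ε / 2) * (D * (x : ℝ) ^ ((2 : ℝ) / 3 + ε / 2)) :=
          mul_le_mul_of_nonneg_right h3 (by positivity)
      _ = D * (x : ℝ) ^ ((2 : ℝ) / 3 + ε) := by rw [h6]; ring
  have hcard : ((EX x).card : ℝ) ≤ A.card + (B.card + T.card) := by
    have h1 := card_le_card hsub
    have h2 := card_union_le A (B ∪ T)
    have h3 := card_union_le B T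
    have h4 : (EX x).card ≤ A.card + (B.card + T.card) := by omega
    exact_mod_cast h4
  have hyp : y ≤ (x : ℝ) ^ ((2 : ℝ) / 3 + ε) := by
    rw [hy]
    exact Real.rpow_le_rpow_of_exponent_le hx1 (by linarith)
  have hT2 : C3 * (x : ℝ) ^ ((2 : ℝ) / 3 + ε) ≤ max C3 0 * (x : ℝ) ^ ((2 : ℝ) / 3 + ε) :=
    mul_le_mul_of_nonneg_right (le_max_left _ _) (by linarith)
  have hX0 : (0 : ℝ) ≤ X := Nat.cast_nonneg X
  have hXp : 0 ≤ (X : ℝ) * (x : ℝ) ^ ((2 : ℝ) / 3 + ε) := by positivity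
  calc ((EX x).card : ℝ) ≤ A.card + (B.card + T.card) := hcard
    _ ≤ (y + 1) + (D * (x : ℝ) ^ ((2 : ℝ) / 3 + ε) + max C3 0 * (x : ℝ) ^ ((2 : ℝ) / 3 + ε)) := by
        linarith
    _ ≤ (X + 2 + D + max C3 0) * (x : ℝ) ^ ((2 : ℝ) / 3 + ε) := by
        nlinarith

end Pool.Agent.BDA
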