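import Pool.Agent.BDA.Defs

set_option autoImplicit false

/-! [BDA-R1] Rankin's bound for smooth numbers. -/

namespace Pool.Agent.BDA

open Finset

theorem r1_mem (z : ℝ) (y m : ℕ) : m ∈ SMC z y ↔ (1 ≤ m ∧ m ≤ y) ∧
    ∀ p : ℕ, p.Prime → p ∣ m → (p : ℝ) ≤ z := by
  classical
  unfold SMC
  rw [Finset.mem_filter, Finset.mem_Icc]

/-- the completely multiplicative function `m ↦ m^(-σ)` -/
noncomputable def r1_f (σ : ℝ) (hσ : 0 < σ) : ℕ →* ℝ where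
  toFun m := (m : ℝ) ^ (-σ)
  map_one' := by simp
  map_mul' a b := by
    push_cast
    exact Real.mul_rpow (Nat.cast_nonneg a) (Nat.cast_nonneg b)

theorem r1_tele (σ : ℝ) (hσ0 : 0 < σ) (hσ1 : σ < 1) (J : ℕ) :
    (1 - σ) * ∑ j ∈ Finset.Icc 1 J, (j : ℝ) ^ (-σ) ≤ (J : ℝ) ^ (1 - σ) := by
  induction J with
  | zero =>
    rw [Finset.Icc_eq_empty (by norm_num), Finset.sum_empty, mul_zero]
    positivity
  | succ J ih =>
    rw [Finset.sum_Icc_succ_top (by omega), mul_add]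
    have hJ : (0 : ℝ) < ((J + 1 : ℕ) : ℝ) := by positivity
    have h1 : ((J : ℕ) : ℝ) ^ (1 - σ) ≤
        ((J + 1 : ℕ) : ℝ) ^ (1 - σ) - (1 - σ) * ((J + 1 : ℕ) : ℝ) ^ (-σ) := by
      have h2 : ((J : ℕ) : ℝ) = ((J + 1 : ℕ) : ℝ) * (1 + -(1 / ((J + 1 : ℕ) : ℝ))) := by
        field_simp
        push_cast
        ring
      have h3 : -1 ≤ -(1 / ((J + 1 : ℕ) : ℝ)) := by
        rw [neg_le_neg_iff, div_le_one hJ]
        push_cast
        linarith [(Nat.cast_nonneg J : (0 : ℝ) ≤ J)]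
      have h4 := rpow_one_add_le_one_add_mul_self h3 (p := 1 - σ) (by linarith) (by linarith)
      rw [h2, Real.mul_rpow hJ.le (by linarith)]
      have h5 := mul_le_mul_of_nonneg_left h4 (Real.rpow_nonneg hJ.le (1 - σ))
      refine h5.trans (le_of_eq ?_)
      have h6 : ((J + 1 : ℕ) : ℝ) ^ (-σ) = ((J + 1 : ℕ) : ℝ) ^ (1 - σ) * (1 / ((J + 1 : ℕ) : ℝ)) := by
        rw [show -σ = (1 - σ) - 1 by ring, Real.rpow_sub_one hJ.ne']
        ring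
      rw [h6]
      ring
    linarith

/-- Proof (Rankin).  `#SMC z y ≤ ∑_{m ∈ SMC z y} (y/m)^σ = y^σ ∑_{m ∈ SMC z y} m^{-σ}`, and
`∑_{m ∈ SMC z y} m^{-σ} ≤ ∏_{p ≤ z} (1 - p^{-σ})^{-1}` (`EulerProduct`-lemmas in Mathlib:
`EulerProduct.summable_and_hasSum_smoothNumbers_prod_primesBelow_tsum` /
`EulerProduct.prod_primesBelow_tsum_eq_tsum_smoothNumbers` for the completely multiplicative `m ↦ m^{-σ}`, with
`Nat.smoothNumbers (⌊z⌋₊ + 1)`; or directly by induction on the finite set of primes, using that every smooth `m ≤ y` is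
`∏ p^{v_p}` with `v_p ≤ log y`).  `(1 - t)^{-1} ≤ exp (t/(1-t))` with `t = p^{-σ} ≤ 2^{-σ}`, so the product is at most
`exp (C₀ ∑_{p ≤ z} p^{-σ})`, `C₀ = 1/(1 - 2^{-σ})`, and `∑_{1 ≤ j ≤ z} j^{-σ} ≤ z^{1-σ}/(1-σ)`
(`j^{-σ} ≤ ∫_{j-1}^{j} t^{-σ} dt`, or `j^{-σ} (1-σ) ≤ j^{1-σ} - (j-1)^{1-σ}` by Bernoulli, telescoping).  -/
theorem rankin (σ : ℝ) (hσ0 : 0 < σ) (hσ1 : σ < 1) : ∃ C : ℝ, 0 < C ∧ ∀ (z : ℝ) (y : ℕ), 1 ≤ z → 1 ≤ y →
    ((SMC z y).card : ℝ) ≤ (y : ℝ) ^ σ * Real.exp (C * z ^ (1 - σ)) := by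
  obtain ⟨τ, hτ⟩ : ∃ τ : ℝ, τ = (2 : ℝ) ^ (-σ) := ⟨_, rfl⟩
  have hτ0 : 0 < τ := by rw [hτ]; positivity
  have hτ1 : τ < 1 := by
    rw [hτ]
    exact Real.rpow_lt_one_of_one_lt_of_neg (by norm_num) (by linarith)
  have hC₀ : 0 < 1 / (1 - τ) := by
    have : 0 < 1 - τ := by linarith
    positivity
  have h1σ : 0 < 1 - σ := by linarith
  refine ⟨1 / (1 - τ) / (1 - σ), by positivity, ?_⟩
  intro z y hz hy
  obtain ⟨N, hN⟩ : ∃ N : ℕ, N = ⌊z⌋₊ + 1 := ⟨_, rfl⟩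
  have hpσ : ∀ p : ℕ, p.Prime → (p : ℝ) ^ (-σ) ≤ τ := by
    intro p hp
    rw [hτ]
    have h2 : (2 : ℝ) ≤ p := by exact_mod_cast hp.two_le
    exact Real.rpow_le_rpow_of_nonpos (by norm_num) h2 (by linarith)
  have hlt : ∀ {p : ℕ}, p.Prime → ‖r1_f σ hσ0 p‖ < 1 := by
    intro p hp
    show ‖(p : ℝ) ^ (-σ)‖ < 1
    rw [Real.norm_of_nonneg (by positivity)]
    exact (hpσ p hp).trans_lt hτ1
  have hprod := (EulerProduct.summable_and_hasSum_smoothNumbers_prod_primesBelow_geometric hlt N).2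
  have hfn : ∀ m, r1_f σ hσ0 m = (m : ℝ) ^ (-σ) := fun m => rfl
  simp only [hfn] at hprod
  -- the sum over the smooth numbers
  have hsum : ∑ m ∈ SMC z y, (m : ℝ) ^ (-σ) ≤ ∏ p ∈ N.primesBelow, (1 - (p : ℝ) ^ (-σ))⁻¹ := by
    have h1 := (hasSum_subtype_iff_indicator (f := fun m : ℕ => (m : ℝ) ^ (-σ))
      (s := N.smoothNumbers)).1 hprod
    have h2 := sum_le_hasSum (SMC z y) (fun m _ => Set.indicator_nonneg
      (fun m _ => by positivity) m) h1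
    refine le_trans (le_of_eq ?_) h2
    refine Finset.sum_congr rfl fun m hm => ?_
    rw [Set.indicator_of_mem]
    rw [Nat.mem_smoothNumbers']
    rw [r1_mem] at hm
    intro p hp hpm
    rw [hN, Nat.lt_succ_iff]
    exact Nat.le_floor (hm.2 p hp hpm)
  -- the product
  have hpr : ∏ p ∈ N.primesBelow, (1 - (p : ℝ) ^ (-σ))⁻¹ ≤
      Real.exp (∑ p ∈ N.primesBelow, 1 / (1 - τ) * (p : ℝ) ^ (-σ)) := by
    rw [Real.exp_sum]
    refine Finset.prod_le_prod (fun p hp => ?_) (fun p hp => ?_)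
    · have h1 := hpσ p (Nat.prime_of_mem_primesBelow hp)
      rw [inv_nonneg]
      linarith
    · have h1 := hpσ p (Nat.prime_of_mem_primesBelow hp)
      have h0 : 0 ≤ (p : ℝ) ^ (-σ) := by positivity
      have h2 : 0 < 1 - (p : ℝ) ^ (-σ) := by linarith
      have h3 : (1 - (p : ℝ) ^ (-σ))⁻¹ = (p : ℝ) ^ (-σ) / (1 - (p : ℝ) ^ (-σ)) + 1 := by
        field_simp
        ring
      rw [h3]
      refine le_trans (Real.add_one_le_exp _) (Real.exp_le_exp.2 ?_)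
      rw [div_eq_mul_one_div, mul_comm]
      exact mul_le_mul_of_nonneg_right
        (one_div_le_one_div_of_le (by linarith) (by linarith)) h0
  have hsub : ∑ p ∈ N.primesBelow, 1 / (1 - τ) * (p : ℝ) ^ (-σ) ≤
      1 / (1 - τ) / (1 - σ) * z ^ (1 - σ) := by
    rw [← Finset.mul_sum]
    have h1 : ∑ p ∈ N.primesBelow, (p : ℝ) ^ (-σ) ≤ ∑ j ∈ Finset.Icc 1 ⌊z⌋₊, (j : ℝ) ^ (-σ) := by
      refine Finset.sum_le_sum_of_subset_of_nonneg (fun p hp => ?_) (fun j _ _ => by positivity)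
      have h2 := Nat.prime_of_mem_primesBelow hp
      have h3 := Nat.lt_of_mem_primesBelow hp
      rw [Finset.mem_Icc]
      exact ⟨h2.one_lt.le, by omega⟩
    have h2 := r1_tele σ hσ0 hσ1 ⌊z⌋₊
    have h3 : ((⌊z⌋₊ : ℕ) : ℝ) ^ (1 - σ) ≤ z ^ (1 - σ) :=
      Real.rpow_le_rpow (Nat.cast_nonneg _) (Nat.floor_le (by linarith)) h1σ.le
    have h4 : ∑ p ∈ N.primesBelow, (p : ℝ) ^ (-σ) ≤ z ^ (1 - σ) / (1 - σ) := by
      rw [le_div_iff₀ h1σ]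
      have := mul_le_mul_of_nonneg_left h1 h1σ.le
      linarith
    calc 1 / (1 - τ) * ∑ p ∈ N.primesBelow, (p : ℝ) ^ (-σ) ≤
        1 / (1 - τ) * (z ^ (1 - σ) / (1 - σ)) := mul_le_mul_of_nonneg_left h4 hC₀.le
      _ = 1 / (1 - τ) / (1 - σ) * z ^ (1 - σ) := by ring
  have hy0 : (0 : ℝ) < y := by exact_mod_cast hy
  have hcard : ((SMC z y).card : ℝ) ≤ (y : ℝ) ^ σ * ∑ m ∈ SMC z y, (m : ℝ) ^ (-σ) := by
    rw [Finset.mul_sum, Finset.card_eq_sum_ones, Nat.cast_sum]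
    refine Finset.sum_le_sum fun m hm => ?_
    rw [r1_mem] at hm
    have hm0 : (0 : ℝ) < m := by exact_mod_cast hm.1.1
    rw [Real.rpow_neg hm0.le, ← div_eq_mul_inv, Nat.cast_one,
      one_le_div (Real.rpow_pos_of_pos hm0 σ)]
    exact Real.rpow_le_rpow hm0.le (by exact_mod_cast hm.1.2) hσ0.le
  refine hcard.trans (mul_le_mul_of_nonneg_left ?_ (by positivity))
  exact (hsum.trans hpr).trans (Real.exp_le_exp.2 hsub)

end Pool.Agent.BDA
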