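import Pool.Agent.BDA.Defs

set_option autoImplicit false

/-! [BDA-S1] Montgomery's inequality for one prime. -/

namespace Pool.Agent.BDA

open Finset

theorem s1_e_add (x y : ℝ) : e (x + y) = e x * e y := by
  unfold e
  rw [← Complex.exp_add]
  congr 1
  push_cast
  ring

theorem s1_e_int (n : ℤ) : e (n : ℝ) = 1 := by
  unfold e
  rw [Complex.exp_eq_one_iff]
  exact ⟨n, by push_cast; ring⟩

theorem s1_conj_e (x : ℝ) : (starRingEnd ℂ) (e x) = e (-x) := by
  unfold e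
  rw [← Complex.exp_conj]
  congr 1
  simp only [map_mul, Complex.conj_ofReal, Complex.conj_I, Complex.ofReal_neg]
  rw [show (starRingEnd ℂ) 2 = 2 from map_ofNat _ 2]
  ring

theorem s1_orth (p : ℕ) (hp : 0 < p) (s t : ℕ) (hs : s < p) (ht : t < p) :
    ∑ b ∈ range p, e (s * ((b : ℝ) / p)) * (starRingEnd ℂ) (e (t * ((b : ℝ) / p))) =
      if s = t then (p : ℂ) else 0 := by
  have hpR : (0 : ℝ) < p := by exact_mod_cast hp
  have hp' : (p : ℝ) ≠ 0 := hpR.ne'
  have hpC : (p : ℂ) ≠ 0 := by exact_mod_cast hp'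
  have h1 : ∀ b : ℕ, e (s * ((b : ℝ) / p)) * (starRingEnd ℂ) (e (t * ((b : ℝ) / p))) =
      (e (((s : ℝ) - t) / p)) ^ b := by
    intro b
    rw [s1_conj_e, ← s1_e_add]
    unfold e
    rw [← Complex.exp_nat_mul]
    congr 1
    push_cast
    field_simp
    ring
  simp_rw [h1]
  split_ifs with h
  · subst h
    have h2 : e (((s : ℝ) - s) / p) = 1 := by
      simp [e]
    rw [h2]
    simp
  · have hx : e (((s : ℝ) - t) / p) ≠ 1 := by
      intro h2
      unfold e at h2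
      rw [Complex.exp_eq_one_iff] at h2
      obtain ⟨n, hn⟩ := h2
      have h3 : (((s : ℝ) - t) / p : ℝ) = n := by
        have h4 : (2 * (Real.pi : ℂ) * Complex.I) ≠ 0 := Complex.two_pi_I_ne_zero
        have h5 : (2 * (Real.pi : ℂ) * Complex.I) * (((((s : ℝ) - t) / p : ℝ)) : ℂ) =
            (2 * (Real.pi : ℂ) * Complex.I) * ((n : ℝ) : ℂ) := by
          rw [hn]
          push_cast
          ring
        exact_mod_cast mul_left_cancel₀ h4 h5
      rw [div_eq_iff hp'] at h3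
      have h6 : (s : ℤ) - t = n * p := by exact_mod_cast h3
      have h8 : n < 1 := by
        by_contra h9
        push Not at h9
        have h10 : (1 : ℤ) * p ≤ n * p := mul_le_mul_of_nonneg_right h9 (by positivity)
        omega
      have h11 : -1 < n := by
        by_contra h9
        push Not at h9
        have h10 : n * p ≤ (-1 : ℤ) * p := mul_le_mul_of_nonneg_right h9 (by positivity)
        omega
      have h7 : n = 0 := by omega
      rw [h7] at h6
      apply h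
      omega
    have hxp : e (((s : ℝ) - t) / p) ^ p = 1 := by
      unfold e
      rw [← Complex.exp_nat_mul, Complex.exp_eq_one_iff]
      refine ⟨(s : ℤ) - t, ?_⟩
      push_cast
      field_simp
    rw [geom_sum_eq hx, hxp, sub_self, zero_div]

/-- Proof.  `A_s = ∑_{n < N, n % p = s} a_n`, so `A_s = 0` for `s ∈ F`.  For all `b < p`:
`∑_{n<N} a_n e(n b/p) = ∑_{s<p} A_s e(s b / p)` (since `n ≡ n % p` and `e(integer) = 1`).  Parseval:
`∑_{b<p} ‖∑_s A_s e(s b/p)‖² = p ∑_s ‖A_s‖²` (expand the square: `∑_{b<p} e(b (s - s')/p) = p` if `s = s'`, else `0`,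
geometric sum with ratio `e((s-s')/p) ≠ 1`).  Cauchy: `‖∑_s A_s‖² ≤ (p - f) ∑_s ‖A_s‖²`, `f = F.card ≤ p`
(`sq_sum_le_card_mul_sum_sq` on `range p \ F`).  With `X = ‖∑ a_n‖²` the term `b = 0` is `X`, so
`(p - f) ∑_{1 ≤ b ≤ p-1} = (p - f) (p ∑‖A_s‖² - X) ≥ p X - (p - f) X = f X`. -/
theorem one_prime (p : ℕ) (hp : p.Prime) (F : Finset ℕ) (hF : F ⊆ range p) (N : ℕ) (a : ℕ → ℂ)
    (hsupp : ∀ n < N, n % p ∈ F → a n = 0) :
    (F.card : ℝ) * ‖∑ n ∈ range N, a n‖ ^ 2 ≤
      ((p : ℝ) - F.card) * ∑ b ∈ Icc 1 (p - 1), ‖∑ n ∈ range N, a n * e (n * ((b : ℝ) / p))‖ ^ 2 := by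
  classical
  have hp0 : 0 < p := hp.pos
  have hpR : (0 : ℝ) < p := by exact_mod_cast hp0
  have hp' : (p : ℝ) ≠ 0 := hpR.ne'
  let A : ℕ → ℂ := fun s => ∑ n ∈ (range N).filter (fun n => n % p = s), a n
  have hA : ∀ s, A s = ∑ n ∈ (range N).filter (fun n => n % p = s), a n := fun s => rfl
  have h1 : ∀ b : ℕ, ∑ n ∈ range N, a n * e (n * ((b : ℝ) / p)) =
      ∑ s ∈ range p, A s * e (s * ((b : ℝ) / p)) := by
    intro b
    rw [← Finset.sum_fiberwise_of_maps_to (s := range N) (t := range p) (g := fun n => n % p)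
      (fun n _ => mem_range.mpr (Nat.mod_lt _ hp0))]
    refine sum_congr rfl fun s hs => ?_
    rw [hA, sum_mul]
    refine sum_congr rfl fun n hn => ?_
    rw [mem_filter] at hn
    congr 1
    have h2 : (n : ℝ) = p * ((n / p : ℕ) : ℝ) + s := by
      rw [← hn.2]
      exact_mod_cast (Nat.div_add_mod n p).symm
    generalize n / p = m at h2
    have h3 : (n : ℝ) * ((b : ℝ) / p) = (((m : ℤ) * (b : ℤ) : ℤ) : ℝ) + s * ((b : ℝ) / p) := by
      rw [h2]
      push_cast
      field_simp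
    rw [h3, s1_e_add, s1_e_int, one_mul]
  have h3 : ∑ b ∈ range p, ‖∑ n ∈ range N, a n * e (n * ((b : ℝ) / p))‖ ^ 2 = p * ∑ s ∈ range p, ‖A s‖ ^ 2 := by
    have h4 : ((∑ b ∈ range p, ‖∑ n ∈ range N, a n * e (n * ((b : ℝ) / p))‖ ^ 2 : ℝ) : ℂ) =
        ((p * ∑ s ∈ range p, ‖A s‖ ^ 2 : ℝ) : ℂ) := by
      rw [Complex.ofReal_sum]
      have h5 : ∀ b : ℕ, ((‖∑ n ∈ range N, a n * e (n * ((b : ℝ) / p))‖ ^ 2 : ℝ) : ℂ) =
          ∑ s ∈ range p, ∑ t ∈ range p, A s * (starRingEnd ℂ) (A t) *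
            (e (s * ((b : ℝ) / p)) * (starRingEnd ℂ) (e (t * ((b : ℝ) / p)))) := by
        intro b
        rw [h1, Complex.ofReal_pow, ← Complex.mul_conj', map_sum, sum_mul_sum]
        refine sum_congr rfl fun s _ => sum_congr rfl fun t _ => ?_
        rw [map_mul]
        ring
      simp_rw [h5]
      rw [sum_comm]
      have h6 : ∀ s ∈ range p, ∑ b ∈ range p, ∑ t ∈ range p, A s * (starRingEnd ℂ) (A t) *
            (e (s * ((b : ℝ) / p)) * (starRingEnd ℂ) (e (t * ((b : ℝ) / p)))) = (p : ℂ) * ((‖A s‖ ^ 2 : ℝ) : ℂ) := by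
        intro s hs
        rw [sum_comm]
        have h7 : ∀ t ∈ range p, ∑ b ∈ range p, A s * (starRingEnd ℂ) (A t) *
            (e (s * ((b : ℝ) / p)) * (starRingEnd ℂ) (e (t * ((b : ℝ) / p)))) =
            if s = t then A s * (starRingEnd ℂ) (A t) * (p : ℂ) else 0 := by
          intro t ht
          rw [← mul_sum, s1_orth p hp0 s t (mem_range.mp hs) (mem_range.mp ht)]
          split_ifs
          · rfl
          · rw [mul_zero]
        rw [sum_congr rfl h7, sum_ite_eq, if_pos hs, Complex.ofReal_pow, ← Complex.mul_conj']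
        ring
      rw [sum_congr rfl h6, ← mul_sum]
      push_cast
      rfl
    exact_mod_cast h4
  have hAF : ∀ s ∈ F, A s = 0 := by
    intro s hs
    rw [hA]
    refine sum_eq_zero fun n hn => ?_
    rw [mem_filter, mem_range] at hn
    exact hsupp n hn.1 (by rw [hn.2]; exact hs)
  have hsum : ∑ n ∈ range N, a n = ∑ s ∈ range p \ F, A s := by
    have h5 : ∑ n ∈ range N, a n = ∑ s ∈ range p, A s := by
      rw [← Finset.sum_fiberwise_of_maps_to (s := range N) (t := range p) (g := fun n => n % p)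
        (fun n _ => mem_range.mpr (Nat.mod_lt _ hp0))]
    rw [h5]
    refine (sum_subset sdiff_subset fun s hs hs2 => ?_).symm
    apply hAF
    by_contra h6
    exact hs2 (mem_sdiff.mpr ⟨hs, h6⟩)
  have hcard : ((range p \ F).card : ℝ) = (p : ℝ) - F.card := by
    have h5 := card_sdiff_add_card_eq_card hF
    rw [card_range] at h5
    have h6 : (((range p \ F).card + F.card : ℕ) : ℝ) = p := by rw [h5]
    push_cast at h6
    linarith
  have hcau : ‖∑ n ∈ range N, a n‖ ^ 2 ≤ ((p : ℝ) - F.card) * ∑ s ∈ range p, ‖A s‖ ^ 2 := by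
    rw [hsum, ← hcard]
    calc ‖∑ s ∈ range p \ F, A s‖ ^ 2 ≤ (∑ s ∈ range p \ F, ‖A s‖) ^ 2 :=
          pow_le_pow_left₀ (norm_nonneg _) (norm_sum_le _ _) 2
      _ ≤ ((range p \ F).card : ℝ) * ∑ s ∈ range p \ F, ‖A s‖ ^ 2 := sq_sum_le_card_mul_sum_sq
      _ ≤ ((range p \ F).card : ℝ) * ∑ s ∈ range p, ‖A s‖ ^ 2 := by
          refine mul_le_mul_of_nonneg_left ?_ (by positivity)
          exact sum_le_sum_of_subset_of_nonneg sdiff_subset fun _ _ _ => by positivity
  have hsplit : range p = insert 0 (Icc 1 (p - 1)) := by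
    ext b
    rw [mem_insert, mem_range, mem_Icc]
    omega
  have h0 : ‖∑ n ∈ range N, a n * e (n * (((0 : ℕ) : ℝ) / p))‖ ^ 2 = ‖∑ n ∈ range N, a n‖ ^ 2 := by
    congr 2
    refine sum_congr rfl fun n _ => ?_
    have h5 : e (n * (((0 : ℕ) : ℝ) / p)) = 1 := by
      simp [e]
    rw [h5, mul_one]
  rw [hsplit, sum_insert (by rw [mem_Icc]; omega), h0, ← hsplit] at h3
  have hq : 0 ≤ (p : ℝ) - F.card := by
    rw [← hcard]
    positivity
  have h9 : ∑ b ∈ Icc 1 (p - 1), ‖∑ n ∈ range N, a n * e (n * ((b : ℝ) / p))‖ ^ 2 =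
      p * ∑ s ∈ range p, ‖A s‖ ^ 2 - ‖∑ n ∈ range N, a n‖ ^ 2 := by
    linarith
  rw [h9]
  have h10 := mul_le_mul_of_nonneg_left hcau hpR.le
  nlinarith [h10]

end Pool.Agent.BDA
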