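import Pool.Agent.BDA.S1

set_option autoImplicit false

/-! [BDA-S2] Montgomery's inequality for a squarefree modulus. -/

namespace Pool.Agent.BDA

open Finset

theorem S2_e_add (s t : ℝ) : e (s + t) = e s * e t := by
  unfold e
  rw [← Complex.exp_add]
  congr 1
  push_cast
  ring

theorem S2_e_nat (k : ℕ) : e (k : ℝ) = 1 := by
  unfold e
  rw [Complex.exp_eq_one_iff]
  exact ⟨k, by push_cast; ring⟩

theorem S2_shift (N : ℕ) (a : ℕ → ℂ) (x : ℝ) (m : ℕ) :
    ∑ n ∈ range N, a n * e (n * (x + m)) = ∑ n ∈ range N, a n * e (n * x) := by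
  apply Finset.sum_congr rfl
  intro n _
  have h : (n : ℝ) * (x + m) = n * x + ((n * m : ℕ) : ℝ) := by
    push_cast
    ring
  rw [h, S2_e_add, S2_e_nat, mul_one]

theorem S2_step1 (η : ℝ) (p : ℕ) (hp : p.Prime) (F : Finset ℕ) (hF : F ⊆ range p)
    (hηF : η * ((p : ℝ) - F.card) ≤ F.card) (N : ℕ)
    (a : ℕ → ℂ) (hsupp : ∀ n < N, n % p ∈ F → a n = 0) (θ : ℝ) :
    η * ‖∑ n ∈ range N, a n * e (n * θ)‖ ^ 2 ≤
      ∑ b ∈ Icc 1 (p - 1), ‖∑ n ∈ range N, a n * e (n * (θ + (b : ℝ) / p))‖ ^ 2 := by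
  have h1 := one_prime p hp F hF N (fun n => a n * e (n * θ)) (by
    intro n hn hnF
    simp only [hsupp n hn hnF, zero_mul])
  have h2 : ∀ b : ℕ, ∑ n ∈ range N, (a n * e (n * θ)) * e (n * ((b : ℝ) / p)) =
      ∑ n ∈ range N, a n * e (n * (θ + (b : ℝ) / p)) := by
    intro b
    apply Finset.sum_congr rfl
    intro n _
    rw [mul_add, S2_e_add, mul_assoc]
  simp only [h2] at h1
  have hnn : 0 ≤ ∑ b ∈ Icc 1 (p - 1), ‖∑ n ∈ range N, a n * e (n * (θ + (b : ℝ) / p))‖ ^ 2 :=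
    Finset.sum_nonneg (fun b _ => by positivity)
  by_cases hc : F.card < p
  · have hpos : 0 < (p : ℝ) - F.card := by
      have : (F.card : ℝ) < p := by exact_mod_cast hc
      linarith
    have hX : 0 ≤ ‖∑ n ∈ range N, a n * e (n * θ)‖ ^ 2 := by positivity
    have h3 : ((p : ℝ) - F.card) * (η * ‖∑ n ∈ range N, a n * e (n * θ)‖ ^ 2) ≤
        ((p : ℝ) - F.card) * ∑ b ∈ Icc 1 (p - 1), ‖∑ n ∈ range N, a n * e (n * (θ + (b : ℝ) / p))‖ ^ 2 := by
      calc ((p : ℝ) - F.card) * (η * ‖∑ n ∈ range N, a n * e (n * θ)‖ ^ 2)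
          = (η * ((p : ℝ) - F.card)) * ‖∑ n ∈ range N, a n * e (n * θ)‖ ^ 2 := by ring
        _ ≤ (F.card : ℝ) * ‖∑ n ∈ range N, a n * e (n * θ)‖ ^ 2 :=
            mul_le_mul_of_nonneg_right hηF hX
        _ ≤ _ := h1
    exact le_of_mul_le_mul_left h3 hpos
  · have hcard : F = range p := by
      apply Finset.eq_of_subset_of_card_le hF
      rw [card_range]
      omega
    have hz : ∑ n ∈ range N, a n * e (n * θ) = 0 := by
      apply Finset.sum_eq_zero
      intro n hn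
      rw [hsupp n (mem_range.mp hn) (by rw [hcard, mem_range]; exact Nat.mod_lt _ hp.pos), zero_mul]
    rw [hz]
    simpa using hnn

theorem S2_mem (p q b c : ℕ) (hp : p.Prime) (hpq : Nat.Coprime p q) (hq : 0 < q) (hb : b ∈ Icc 1 (p - 1))
    (hc : c ∈ (range q).filter (Nat.Coprime q)) :
    (c * p + b * q) % (p * q) ∈ (range (p * q)).filter (Nat.Coprime (p * q)) := by
  rw [mem_filter, mem_range] at hc ⊢
  rw [mem_Icc] at hb
  have hpp := hp.pos
  refine ⟨Nat.mod_lt _ (Nat.mul_pos hpp hq), ?_⟩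
  have h1 : Nat.Coprime (p * q) (c * p + b * q) := by
    apply Nat.Coprime.mul_left
    · rw [Nat.Prime.coprime_iff_not_dvd hp]
      intro hd
      have hd2 : p ∣ b * q := (Nat.dvd_add_right (Dvd.intro_left c rfl)).mp hd
      rcases (Nat.Prime.dvd_mul hp).mp hd2 with h | h
      · have := Nat.le_of_dvd (by omega) h
        omega
      · have := (Nat.Prime.coprime_iff_not_dvd hp).mp hpq
        exact this h
    · have h3 : Nat.Coprime q (c * p) := Nat.Coprime.mul_right hc.2 hpq.symm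
      rw [Nat.coprime_add_mul_right_right]
      exact h3
  unfold Nat.Coprime at h1 ⊢
  rw [Nat.gcd_comm, ← Nat.gcd_rec]
  exact h1

theorem S2_inj (p q : ℕ) (hp : p.Prime) (hpq : Nat.Coprime p q) :
    Set.InjOn (fun x : ℕ × ℕ => (x.2 * p + x.1 * q) % (p * q))
      (((Icc 1 (p - 1)) ×ˢ ((range q).filter (Nat.Coprime q)) : Finset (ℕ × ℕ)) : Set (ℕ × ℕ)) := by
  rintro ⟨b1, c1⟩ h1 ⟨b2, c2⟩ h2 heq
  rw [mem_coe, mem_product, mem_filter, mem_Icc, mem_range] at h1 h2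
  obtain ⟨⟨hb1, hb1'⟩, hc1, -⟩ := h1
  obtain ⟨⟨hb2, hb2'⟩, hc2, -⟩ := h2
  simp only at heq hb1 hb1' hc1 hb2 hb2' hc2
  have hpp := hp.pos
  have hm : c1 * p + b1 * q ≡ c2 * p + b2 * q [MOD p * q] := heq
  have hmp : c1 * p + b1 * q ≡ c2 * p + b2 * q [MOD p] := hm.of_mul_right q
  have hmq : c1 * p + b1 * q ≡ c2 * p + b2 * q [MOD q] := hm.of_mul_left p
  have hB : b1 * q ≡ b2 * q [MOD p] := by
    have e1 : c1 * p + b1 * q ≡ 0 + b1 * q [MOD p] := by
      apply Nat.ModEq.add_right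
      exact (Nat.modEq_zero_iff_dvd.mpr (Dvd.intro_left c1 rfl))
    have e2 : c2 * p + b2 * q ≡ 0 + b2 * q [MOD p] := by
      apply Nat.ModEq.add_right
      exact (Nat.modEq_zero_iff_dvd.mpr (Dvd.intro_left c2 rfl))
    rw [zero_add] at e1 e2
    exact e1.symm.trans (hmp.trans e2)
  have hC : c1 * p ≡ c2 * p [MOD q] := by
    have e1 : c1 * p + b1 * q ≡ c1 * p + 0 [MOD q] := by
      apply Nat.ModEq.add_left
      exact (Nat.modEq_zero_iff_dvd.mpr (Dvd.intro_left b1 rfl))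
    have e2 : c2 * p + b2 * q ≡ c2 * p + 0 [MOD q] := by
      apply Nat.ModEq.add_left
      exact (Nat.modEq_zero_iff_dvd.mpr (Dvd.intro_left b2 rfl))
    rw [add_zero] at e1 e2
    exact e1.symm.trans (hmq.trans e2)
  have hb : b1 ≡ b2 [MOD p] := Nat.ModEq.cancel_right_of_coprime hpq hB
  have hc : c1 ≡ c2 [MOD q] := Nat.ModEq.cancel_right_of_coprime hpq.symm hC
  have hbe : b1 = b2 := Nat.ModEq.eq_of_lt_of_lt hb (by omega) (by omega)
  have hce : c1 = c2 := Nat.ModEq.eq_of_lt_of_lt hc hc1 hc2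
  rw [hbe, hce]

/-- Proof.  Induction on `Q` (`Finset.induction_on`), for all `θ`.  `Q = ∅`: `∏ = 1`, the only `c` is `0`.
`Q = insert p Q'`, `q' = ∏_{Q'}`, `q = p q'`, `p` coprime to `q'` (distinct primes).  For fixed `θ` apply
`one_prime p` to the coefficients `a_n e(n θ)` (same support condition): with `f = (F p).card`, `X = ‖S(θ)‖²`, `f X ≤
(p - f) ∑_b ‖S(θ + b/p)‖²`, and `η (p - f) ≤ f`; if `p - f > 0` this gives `η X ≤ ∑_b ‖S(θ + b/p)‖²`; if `p - f ≤ 0`
then `F p = range p`, all `a_n = 0` and everything is `0`.  Then the induction hypothesis at `θ + b/p`: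
`η^{|Q'|+1} X ≤ ∑_b ∑_{c'} ‖S(θ + b/p + c'/q')‖²`.  The map `(b, c') ↦ (c' p + b q') % q` is injective from
`[1,p-1] × (coprime residues mod q')` into the coprime residues mod `q` (mod `p` it is `b q'`, mod `q'` it is `c' p`), and
`b/p + c'/q' - c/q` is an integer, so `‖S‖` agrees (`e(n · integer) = 1`).  All terms are `≥ 0`, so
`Finset.sum_le_sum_of_injOn`-type comparison is enough (no surjectivity needed). -/
theorem many_primes (η : ℝ) (hη : 0 ≤ η) (Q : Finset ℕ) (hQ : ∀ p ∈ Q, p.Prime) (F : ℕ → Finset ℕ)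
    (hF : ∀ p ∈ Q, F p ⊆ range p) (hηF : ∀ p ∈ Q, η * ((p : ℝ) - (F p).card) ≤ (F p).card) (N : ℕ)
    (a : ℕ → ℂ) (hsupp : ∀ p ∈ Q, ∀ n < N, n % p ∈ F p → a n = 0) (θ : ℝ) :
    η ^ Q.card * ‖∑ n ∈ range N, a n * e (n * θ)‖ ^ 2 ≤
      ∑ c ∈ (range (∏ p ∈ Q, p)).filter (Nat.Coprime (∏ p ∈ Q, p)),
        ‖∑ n ∈ range N, a n * e (n * (θ + (c : ℝ) / ((∏ p ∈ Q, p : ℕ) : ℝ)))‖ ^ 2 := by
  classical
  revert θ
  induction Q using Finset.induction_on with
  | empty =>
    intro θ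
    simp only [card_empty, pow_zero, one_mul, prod_empty, Nat.cast_one, div_one]
    rw [show (range 1).filter (Nat.Coprime 1) = {0} by decide]
    simp
  | insert p Q hpQ ih =>
    intro θ
    have hp : p.Prime := hQ p (mem_insert_self p Q)
    have hQ' : ∀ r ∈ Q, r.Prime := fun r hr => hQ r (mem_insert_of_mem hr)
    have ih' := ih hQ' (fun r hr => hF r (mem_insert_of_mem hr)) (fun r hr => hηF r (mem_insert_of_mem hr))
      (fun r hr => hsupp r (mem_insert_of_mem hr))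
    rw [card_insert_of_notMem hpQ, prod_insert hpQ]
    have hq : 0 < ∏ r ∈ Q, r := Finset.prod_pos (fun r hr => (hQ' r hr).pos)
    have hpq : Nat.Coprime p (∏ r ∈ Q, r) := by
      apply Nat.Coprime.prod_right
      intro r hr
      rw [Nat.coprime_primes hp (hQ' r hr)]
      rintro rfl
      exact hpQ hr
    generalize (∏ r ∈ Q, r) = q at *
    have hs1 := S2_step1 η p hp (F p) (hF p (mem_insert_self p Q)) (hηF p (mem_insert_self p Q)) N a
      (hsupp p (mem_insert_self p Q)) θ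
    have hqR : (q : ℝ) ≠ 0 := by exact_mod_cast hq.ne'
    have hpR : (p : ℝ) ≠ 0 := by exact_mod_cast hp.pos.ne'
    have hpow : 0 ≤ η ^ Q.card := pow_nonneg hη _
    calc η ^ (Q.card + 1) * ‖∑ n ∈ range N, a n * e (n * θ)‖ ^ 2
        = η ^ Q.card * (η * ‖∑ n ∈ range N, a n * e (n * θ)‖ ^ 2) := by ring
      _ ≤ η ^ Q.card * ∑ b ∈ Icc 1 (p - 1), ‖∑ n ∈ range N, a n * e (n * (θ + (b : ℝ) / p))‖ ^ 2 :=
          mul_le_mul_of_nonneg_left hs1 hpow
      _ = ∑ b ∈ Icc 1 (p - 1), η ^ Q.card * ‖∑ n ∈ range N, a n * e (n * (θ + (b : ℝ) / p))‖ ^ 2 := by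
          rw [mul_sum]
      _ ≤ ∑ b ∈ Icc 1 (p - 1), ∑ c ∈ (range q).filter (Nat.Coprime q),
            ‖∑ n ∈ range N, a n * e (n * (θ + (b : ℝ) / p + (c : ℝ) / (q : ℝ)))‖ ^ 2 :=
          Finset.sum_le_sum (fun b _ => ih' (θ + (b : ℝ) / p))
      _ = ∑ x ∈ (Icc 1 (p - 1)) ×ˢ ((range q).filter (Nat.Coprime q)),
            ‖∑ n ∈ range N, a n * e (n * (θ + (((x.2 * p + x.1 * q) % (p * q) : ℕ) : ℝ) / ((p * q : ℕ) : ℝ)))‖ ^ 2 := by
          rw [Finset.sum_product]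
          apply Finset.sum_congr rfl
          intro b _
          apply Finset.sum_congr rfl
          intro c _
          have hkey : θ + (b : ℝ) / p + (c : ℝ) / (q : ℝ) =
              (θ + (((c * p + b * q) % (p * q) : ℕ) : ℝ) / ((p * q : ℕ) : ℝ)) +
                (((c * p + b * q) / (p * q) : ℕ) : ℝ) := by
            have h1 : (((p * q) * ((c * p + b * q) / (p * q)) + (c * p + b * q) % (p * q) : ℕ) : ℝ) =
                ((c * p + b * q : ℕ) : ℝ) := by rw [Nat.div_add_mod]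
            rw [Nat.cast_add, Nat.cast_mul (p * q)] at h1
            generalize (((c * p + b * q) % (p * q) : ℕ) : ℝ) = A at *
            generalize (((c * p + b * q) / (p * q) : ℕ) : ℝ) = B at *
            push_cast at h1 ⊢
            field_simp
            linarith
          rw [hkey, S2_shift]
      _ = ∑ c ∈ ((Icc 1 (p - 1)) ×ˢ ((range q).filter (Nat.Coprime q))).image
              (fun x : ℕ × ℕ => (x.2 * p + x.1 * q) % (p * q)),
            ‖∑ n ∈ range N, a n * e (n * (θ + (c : ℝ) / ((p * q : ℕ) : ℝ)))‖ ^ 2 := by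
          rw [Finset.sum_image (S2_inj p q hp hpq)]
      _ ≤ ∑ c ∈ (range (p * q)).filter (Nat.Coprime (p * q)),
            ‖∑ n ∈ range N, a n * e (n * (θ + (c : ℝ) / ((p * q : ℕ) : ℝ)))‖ ^ 2 := by
          apply Finset.sum_le_sum_of_subset_of_nonneg
          · intro c hc
            rw [mem_image] at hc
            obtain ⟨⟨b, c'⟩, hx, rfl⟩ := hc
            rw [mem_product] at hx
            exact S2_mem p q b c' hp hpq hq hx.1 hx.2
          · intro c _ _
            positivity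

end Pool.Agent.BDA
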