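import Pool.Agent.BDA.S2
import Pool.Agent.MP_ffd2b5_nt.LF

set_option autoImplicit false

/-! [BDA-S3] The large sieve with products of `m` primes. -/

namespace Pool.Agent.BDA

open Finset

theorem s3_q_pos (Q : Finset ℕ) (hQ : ∀ p ∈ Q, p.Prime) : 0 < ∏ p ∈ Q, p :=
  Finset.prod_pos fun p hp => (hQ p hp).pos

theorem s3_q_inj (Q Q' : Finset ℕ) (hQ : ∀ p ∈ Q, p.Prime) (hQ' : ∀ p ∈ Q', p.Prime)
    (h : ∏ p ∈ Q, p = ∏ p ∈ Q', p) : Q = Q' := by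
  rw [← Nat.primeFactors_prod hQ, ← Nat.primeFactors_prod hQ', h]

theorem s3_space (q q' c c' : ℕ) (hq : 0 < q) (hq' : 0 < q') (hc : c < q) (hc' : c' < q')
    (hqc : Nat.Coprime q c) (hqc' : Nat.Coprime q' c') (t : ℤ)
    (h : (c : ℤ) * q' - c' * q - t * (q * q') = 0) : q = q' ∧ c = c' := by
  have h1 : (q : ℤ) ∣ q' * c := ⟨c' + t * q', by linear_combination h⟩
  have h2 : (q' : ℤ) ∣ q * c' := ⟨c - t * q, by linear_combination -h⟩
  have h3 : q ∣ q' := hqc.dvd_of_dvd_mul_right (by exact_mod_cast h1)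
  have h4 : q' ∣ q := hqc'.dvd_of_dvd_mul_right (by exact_mod_cast h2)
  have h5 : q = q' := Nat.dvd_antisymm h3 h4
  subst h5
  refine ⟨rfl, ?_⟩
  have hq0 : (0 : ℤ) < q := by exact_mod_cast hq
  have h6 : (c : ℤ) - c' - t * q = 0 := by
    have h7 : (q : ℤ) * ((c : ℤ) - c' - t * q) = 0 := by linear_combination h
    rcases mul_eq_zero.1 h7 with h8 | h8
    · exact absurd h8 hq0.ne'
    · exact h8
  have hcz : (c : ℤ) < q := by exact_mod_cast hc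
  have hcz' : (c' : ℤ) < q := by exact_mod_cast hc'
  have h0 : (0 : ℤ) ≤ c := Int.natCast_nonneg _
  have h0' : (0 : ℤ) ≤ c' := Int.natCast_nonneg _
  have ht : t = 0 := by
    by_contra ht
    rcases lt_or_gt_of_ne ht with h9 | h9
    · nlinarith
    · nlinarith
  rw [ht] at h6
  omega

theorem s3_abs (q q' c c' : ℕ) (hq : 0 < q) (hq' : 0 < q') (hc : c < q) (hc' : c' < q')
    (hqc : Nat.Coprime q c) (hqc' : Nat.Coprime q' c') (t : ℤ) (M : ℝ) (hM : (q : ℝ) * q' ≤ M)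
    (h : ¬ (q = q' ∧ c = c')) : 1 / M ≤ |(c : ℝ) / q - (c' : ℝ) / q' - t| := by
  have hz : (c : ℤ) * q' - c' * q - t * (q * q') ≠ 0 := fun hz => h (s3_space q q' c c' hq hq' hc hc' hqc hqc' t hz)
  have hq0 : (0 : ℝ) < q := by exact_mod_cast hq
  have hq0' : (0 : ℝ) < q' := by exact_mod_cast hq'
  have h1 : (1 : ℝ) ≤ |((((c : ℤ) * q' - c' * q - t * (q * q') : ℤ)) : ℝ)| := by
    rw [← Int.cast_abs]
    exact_mod_cast Int.one_le_abs hz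
  have h2 : (c : ℝ) / q - (c' : ℝ) / q' - t = ((((c : ℤ) * q' - c' * q - t * (q * q') : ℤ)) : ℝ) / (q * q') := by
    push_cast
    field_simp
  rw [h2, abs_div, abs_of_pos (mul_pos hq0 hq0')]
  exact div_le_div₀ (abs_nonneg _) h1 (mul_pos hq0 hq0') hM

/-- Proof.  `a = ` indicator of `𝒩` (`∑_{n<N} ‖a_n‖² = |𝒩| = ∑ a_n`).  If `G.card < m` the left side is `0`
(`Nat.choose_eq_zero_of_lt`).  Otherwise for every `Q ∈ powersetCard m G` `many_primes` with `θ = 0` gives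
`η^m |𝒩|² ≤ ∑_{c} ‖S(c/q_Q)‖²`; sum over `Q`: `η^m C(|G|,m) |𝒩|² ≤ ∑_{(Q,c)} ‖S(c/q_Q)‖²` and the right side is at most
`16 (N + K^{2m} + 1) |𝒩|` by `Pool.Agent.MP_ffd2b5_nt.large_sieve` (its `e` is literally the same function:
`Pool.Agent.MP_ffd2b5_nt.e = e` by `rfl`/unfold) with the index set `(powersetCard m G).sigma (coprime residues mod q_Q)`,
`α (Q,c) = c/q_Q`, `δ = 1/K^{2m}`.  Spacing: for `(Q,c) ≠ (Q',c')` and `t : ℤ`,
`c/q - c'/q' - t = (c q' - c' q - t q q')/(q q')` has absolute value `≥ 1/(q q') ≥ K^{-2m}` unless the numerator is `0`;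
numerator `0` and `(c,q) = (c',q') = 1` give `q = q'` (so `Q = Q'` by unique factorisation: `p ∈ Q ↔ p ∣ q_Q` for primes),
`q ∣ c - c'`, `c = c'`.  Divide by `|𝒩|` (trivial if `𝒩 = ∅`). -/
theorem sieve_bound (η : ℝ) (hη : 0 ≤ η) (G : Finset ℕ) (K m N : ℕ) (hK : 1 ≤ K)
    (hG : ∀ p ∈ G, p.Prime ∧ p ≤ K) (F : ℕ → Finset ℕ) (hF : ∀ p ∈ G, F p ⊆ range p)
    (hηF : ∀ p ∈ G, η * ((p : ℝ) - (F p).card) ≤ (F p).card) (𝒩 : Finset ℕ) (h𝒩 : 𝒩 ⊆ range N)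
    (hav : ∀ n ∈ 𝒩, ∀ p ∈ G, n % p ∉ F p) :
    (𝒩.card : ℝ) * (η ^ m * (G.card.choose m : ℝ)) ≤ 16 * ((N : ℝ) + (K : ℝ) ^ (2 * m) + 1) := by
  classical
  have hGp : ∀ Q ∈ powersetCard m G, ∀ p ∈ Q, p.Prime := fun Q hQ p hp =>
    (hG p ((mem_powersetCard.1 hQ).1 hp)).1
  have hK0 : (0 : ℝ) < K := by exact_mod_cast hK
  have hqK : ∀ Q ∈ powersetCard m G, ∏ p ∈ Q, p ≤ K ^ m := by
    intro Q hQ
    have h1 := Finset.prod_le_pow_card Q (fun p => p) K fun p hp =>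
      (hG p ((mem_powersetCard.1 hQ).1 hp)).2
    rwa [(mem_powersetCard.1 hQ).2] at h1
  obtain ⟨a, ha⟩ : ∃ a : ℕ → ℂ, a = fun n => if n ∈ 𝒩 then 1 else 0 := ⟨_, rfl⟩
  have ha1 : ∑ n ∈ range N, a n = (𝒩.card : ℂ) := by
    rw [ha, ← Finset.sum_filter, Finset.filter_mem_eq_inter, Finset.inter_eq_right.2 h𝒩, Finset.sum_const,
      nsmul_eq_mul, mul_one]
  have ha2 : ∑ n ∈ range N, ‖a n‖ ^ 2 = (𝒩.card : ℝ) := by
    have h1 : ∀ n, ‖a n‖ ^ 2 = if n ∈ 𝒩 then 1 else 0 := by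
      intro n
      rw [ha]
      by_cases hn : n ∈ 𝒩
      · simp [hn]
      · simp [hn]
    rw [Finset.sum_congr rfl fun n _ => h1 n, ← Finset.sum_filter, Finset.filter_mem_eq_inter,
      Finset.inter_eq_right.2 h𝒩, Finset.sum_const, nsmul_eq_mul, mul_one]
  have he0 : ∀ n : ℕ, e ((n : ℝ) * 0) = 1 := by
    intro n
    unfold e
    simp
  have hone : ∀ Q ∈ powersetCard m G, η ^ m * (𝒩.card : ℝ) ^ 2 ≤
      ∑ c ∈ (range (∏ p ∈ Q, p)).filter (Nat.Coprime (∏ p ∈ Q, p)),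
        ‖∑ n ∈ range N, a n * e (n * ((c : ℝ) / ((∏ p ∈ Q, p : ℕ) : ℝ)))‖ ^ 2 := by
    intro Q hQ
    have hsub := (mem_powersetCard.1 hQ).1
    have h1 := many_primes η hη Q (hGp Q hQ) F (fun p hp => hF p (hsub hp)) (fun p hp => hηF p (hsub hp)) N a
      (fun p hp n _ hn => by
        rw [ha]
        by_cases hn𝒩 : n ∈ 𝒩
        · exact absurd hn (hav n hn𝒩 p (hsub hp))
        · simp [hn𝒩]) 0
    rw [(mem_powersetCard.1 hQ).2] at h1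
    simp only [he0, mul_one, zero_add] at h1
    rw [ha1, Complex.norm_natCast] at h1
    exact h1
  obtain ⟨R, hR⟩ : ∃ R : Finset (Σ _ : Finset ℕ, ℕ), R = (powersetCard m G).sigma
      fun Q => (range (∏ p ∈ Q, p)).filter (Nat.Coprime (∏ p ∈ Q, p)) := ⟨_, rfl⟩
  obtain ⟨α, hα⟩ : ∃ α : (Σ _ : Finset ℕ, ℕ) → ℝ, α = fun r => (r.2 : ℝ) / ((∏ p ∈ r.1, p : ℕ) : ℝ) := ⟨_, rfl⟩
  have hK2 : (1 : ℝ) ≤ (K : ℝ) ^ (2 * m) := one_le_pow₀ (by exact_mod_cast hK)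
  have hls := Pool.Agent.MP_ffd2b5_nt.large_sieve R α (1 / (K : ℝ) ^ (2 * m)) (by positivity)
    (by rw [div_le_one (by positivity)]; exact hK2) (by
      rintro ⟨Q, c⟩ hr ⟨Q', c'⟩ hs hne t
      rw [hR, Finset.mem_sigma, mem_filter, mem_range] at hr hs
      obtain ⟨hQ, hc, hqc⟩ := hr
      obtain ⟨hQ', hc', hqc'⟩ := hs
      rw [hα]
      refine s3_abs _ _ c c' (s3_q_pos Q (hGp Q hQ)) (s3_q_pos Q' (hGp Q' hQ')) hc hc' hqc hqc' t _ ?_ ?_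
      · have h1 : (((∏ p ∈ Q, p : ℕ) : ℝ)) ≤ (K : ℝ) ^ m := by exact_mod_cast hqK Q hQ
        have h2 : (((∏ p ∈ Q', p : ℕ) : ℝ)) ≤ (K : ℝ) ^ m := by exact_mod_cast hqK Q' hQ'
        rw [two_mul, pow_add]
        exact mul_le_mul h1 h2 (Nat.cast_nonneg _) (by positivity)
      · rintro ⟨h1, h2⟩
        apply hne
        have h3 := s3_q_inj Q Q' (hGp Q hQ) (hGp Q' hQ') h1
        subst h3
        subst h2
        rfl) N a
  have hsum : (G.card.choose m : ℝ) * (η ^ m * (𝒩.card : ℝ) ^ 2) ≤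
      ∑ r ∈ R, ‖∑ n ∈ Finset.range N, a n * e (n * α r)‖ ^ 2 := by
    rw [hR, Finset.sum_sigma, hα]
    refine le_trans (le_of_eq ?_) (Finset.sum_le_sum hone)
    rw [Finset.sum_const, card_powersetCard, nsmul_eq_mul]
  have hfin : (G.card.choose m : ℝ) * (η ^ m * (𝒩.card : ℝ) ^ 2) ≤
      16 * ((N : ℝ) + (K : ℝ) ^ (2 * m) + 1) * (𝒩.card : ℝ) := by
    refine hsum.trans ?_
    rw [ha2, one_div_one_div] at hls
    exact hls
  rcases Nat.eq_zero_or_pos 𝒩.card with h0 | h0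
  · rw [h0, Nat.cast_zero, zero_mul]
    positivity
  · have h0' : (0 : ℝ) < (𝒩.card : ℝ) := by exact_mod_cast h0
    refine le_of_mul_le_mul_right ?_ h0'
    refine le_trans (le_of_eq ?_) hfin
    ring

end Pool.Agent.BDA
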